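import Pool.Agent.W623.SecD.Comp

/-! # Valuation rings with finite residue field in finitely generated fields -/

namespace Pool.Agent.W623.SecF

open Polynomial Pool.Agent.W623.SecC

/-- finite sets of elements lie in valuation rings with finite residue field -/
def FV (K : Type) [Field K] : Prop :=
  ∀ S : Finset K, ∃ O : ValuationSubring K, Finite (IsLocalRing.ResidueField O) ∧ ∀ s ∈ S, s ∈ O

theorem FV.of_finite (K : Type) [Field K] [Finite K] : FV K := by
  intro S
  refine ⟨⊤, ?_, fun _ _ => trivial⟩
  have h3 : Finite (⊤ : ValuationSubring K) := Subtype.finite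
  exact Finite.of_surjective _ (IsLocalRing.residue_surjective (R := (⊤ : ValuationSubring K)))

/-- dominating valuation rings in finite extensions have finite residue field -/
theorem finite_residue_of {K k : Type} [Field K] [Field k] [Algebra K k] [FiniteDimensional K k]
    (O : ValuationSubring K) [Finite (IsLocalRing.ResidueField O)] (O' : ValuationSubring k)
    (j : O →+* O') [IsLocalHom j] (hj : ∀ x, ((j x : O') : k) = algebraMap K k x) :
    Finite (IsLocalRing.ResidueField O') := by
  classical
  let _ : Algebra (IsLocalRing.ResidueField O) (IsLocalRing.ResidueField O') :=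
    (IsLocalRing.ResidueField.map j).toAlgebra
  have hmap : ∀ x : O, algebraMap (IsLocalRing.ResidueField O) (IsLocalRing.ResidueField O')
      (IsLocalRing.residue O x) = IsLocalRing.residue O' (j x) := fun x => rfl
  have hrank : Module.rank (IsLocalRing.ResidueField O) (IsLocalRing.ResidueField O') ≤
      (Module.finrank K k : ℕ) := by
    apply rank_le
    intro s hs
    choose g hg using fun i : s => IsLocalRing.residue_surjective (R := O') (i : IsLocalRing.ResidueField O')
    have hli : LinearIndependent K (fun i : s => ((g i : O') : k)) := by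
      rw [Fintype.linearIndependent_iff]
      by_contra hcon
      push Not at hcon
      obtain ⟨c, hc, i1, hi1⟩ := hcon
      obtain ⟨i0, -, hmax⟩ := Finset.exists_max_image Finset.univ (fun i : s => O.valuation (c i))
        ⟨i1, Finset.mem_univ _⟩
      have hi0 : c i0 ≠ 0 := by
        intro h0
        have h1 := hmax i1 (Finset.mem_univ _)
        rw [h0, map_zero, le_zero_iff, map_eq_zero] at h1
        exact hi1 h1
      have hmem : ∀ i, c i / c i0 ∈ O := by
        intro i
        rw [← ValuationSubring.valuation_le_one_iff, map_div₀]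
        exact div_le_one_of_le₀ (hmax i (Finset.mem_univ _)) zero_le
      have hsum : ∑ i, j ⟨c i / c i0, hmem i⟩ * g i = 0 := by
        apply Subtype.ext
        push_cast
        have h1 : ∀ i : s, ((j ⟨c i / c i0, hmem i⟩ : O') : k) * (g i : k) =
            algebraMap K k (c i0)⁻¹ * (c i • (g i : k)) := by
          intro i
          rw [hj, Algebra.smul_def, ← mul_assoc, ← map_mul]
          congr 2
          change c i / c i0 = _
          rw [div_eq_inv_mul]
        rw [Finset.sum_congr rfl fun i _ => h1 i, ← Finset.mul_sum, hc, mul_zero]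
      have hsum' := congrArg (IsLocalRing.residue O') hsum
      rw [map_sum, map_zero] at hsum'
      have h2 : ∑ i : s, (IsLocalRing.residue O ⟨c i / c i0, hmem i⟩) •
          (i : IsLocalRing.ResidueField O') = 0 := by
        rw [← hsum']
        refine Finset.sum_congr rfl fun i _ => ?_
        rw [Algebra.smul_def, hmap, map_mul, hg]
      have h3 := (Fintype.linearIndependent_iff.1 hs) _ h2 i0
      have h4 : (⟨c i0 / c i0, hmem i0⟩ : O) = 1 := Subtype.ext (div_self hi0)
      rw [h4, map_one] at h3
      exact one_ne_zero h3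
    have h5 := hli.fintype_card_le_finrank
    simpa using h5
  have hfin : Module.Finite (IsLocalRing.ResidueField O) (IsLocalRing.ResidueField O') := by
    rw [← Module.rank_lt_aleph0_iff]
    exact hrank.trans_lt (Cardinal.natCast_lt_aleph0)
  exact Module.finite_of_finite (IsLocalRing.ResidueField O)

/-- finite extensions -/
theorem FV.alg {K k : Type} [Field K] [Field k] [Algebra K k] [FiniteDimensional K k]
    (h : FV K) : FV k := by
  classical
  intro S
  obtain ⟨O, hO, hS⟩ := h (S.biUnion fun s => (minpoly K s).coeffs)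
  obtain ⟨O', hO', hloc⟩ := IsLocalRing.exists_factor_valuationRing
    ((algebraMap K k).comp O.subtype)
  set j := ((algebraMap K k).comp O.subtype).codRestrict O'.toSubring hO' with hj
  have hjs : ∀ x : O, ((j x : O') : k) = algebraMap K k x := fun x => rfl
  refine ⟨O', finite_residue_of O O' j hjs, fun s hs => ?_⟩
  have hint : IsIntegral O' s := by
    have hmon : (minpoly K s).Monic := minpoly.monic (Algebra.IsIntegral.isIntegral s)
    have hlift : minpoly K s ∈ lifts (algebraMap O K) := by
      rw [lifts_iff_coeff_lifts]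
      intro i
      by_cases hi : (minpoly K s).coeff i = 0
      · exact ⟨0, by rw [hi, map_zero]⟩
      · exact ⟨⟨(minpoly K s).coeff i, hS _ (Finset.mem_biUnion.2 ⟨s, hs, coeff_mem_coeffs hi⟩)⟩,
          rfl⟩
    obtain ⟨q, hq, -, hqm⟩ := lifts_and_degree_eq_and_monic hlift hmon
    refine ⟨q.map j, hqm.map j, ?_⟩
    rw [eval₂_map]
    have h1 : (algebraMap O' k).comp j = (algebraMap K k).comp (algebraMap O K) := by
      ext x
      rfl
    rw [h1, ← eval₂_map, hq]
    exact minpoly.aeval K s
  obtain ⟨y, hy⟩ := IsIntegrallyClosed.isIntegral_iff.1 hint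
  rw [← hy]
  exact y.2

theorem FV.of_surjective {K k : Type} [Field K] [Field k] (h : FV K) (f : K →+* k)
    (hf : Function.Surjective f) : FV k := by
  let _ : Algebra K k := f.toAlgebra
  have h1 : FiniteDimensional K k :=
    Module.Finite.of_surjective (Algebra.linearMap K k) hf
  exact h.alg

/-- the place of `K(t)` at an irreducible polynomial -/
theorem exists_place_irr {K k : Type} [Field K] [Field k] [Algebra K k] (t : k)
    (ht : Transcendental K t) (htop : IntermediateField.adjoin K {t} = ⊤) (π : K[X])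
    (hπ : Irreducible π) [Fact (Irreducible π)] :
    ∃ (A : ValuationSubring k) (ρ : A →+* AdjoinRoot π), Function.Surjective ρ ∧
      ∀ p q : K[X], ¬ π ∣ q → aeval t p / aeval t q ∈ A := by
  classical
  set P : Ideal K[X] := Ideal.span {π} with hP
  have hmemP : ∀ p : K[X], p ∈ P ↔ π ∣ p := by
    intro p
    rw [hP, Ideal.mem_span_singleton]
  have hPp : P.IsPrime := by
    rw [hP, Ideal.span_singleton_prime hπ.ne_zero]
    exact hπ.prime
  have hP0 : P ≠ ⊥ := by
    rw [hP, Ne, Ideal.span_singleton_eq_bot]
    exact hπ.ne_zero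
  have hinj : Function.Injective (aeval t : K[X] →ₐ[K] k) := transcendental_iff_injective.1 ht
  let _ : Algebra K[X] k := ((aeval t : K[X] →ₐ[K] k) : K[X] →+* k).toAlgebra
  have halg : ∀ p : K[X], algebraMap K[X] k p = aeval t p := fun p => rfl
  have hfaith : FaithfulSMul K[X] k := (faithfulSMul_iff_algebraMap_injective _ _).2 hinj
  have hfrac : IsFractionRing K[X] k := by
    apply IsFractionRing.of_field
    intro z
    have hz : z ∈ IntermediateField.adjoin K {t} := by
      rw [htop]
      trivial
    rw [IntermediateField.mem_adjoin_simple_iff] at hz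
    exact hz
  have hunit : ∀ p : P.primeCompl, IsUnit (algebraMap K[X] k (p : K[X])) := by
    intro p
    rw [isUnit_iff_ne_zero, halg, Ne, map_eq_zero_iff _ hinj]
    intro h
    apply p.2
    rw [h]
    exact P.zero_mem
  set B := Localization.AtPrime P with hB
  let φ : B →+* k := IsLocalization.lift (M := P.primeCompl) (g := algebraMap K[X] k) hunit
  have hφ : ∀ p : K[X], φ (algebraMap K[X] B p) = aeval t p := fun p =>
    IsLocalization.lift_eq hunit p
  let _ : Algebra B k := φ.toAlgebra
  have htower : IsScalarTower K[X] B k := IsScalarTower.of_algebraMap_eq fun p => (hφ p).symm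
  have hBfrac : IsFractionRing B k :=
    IsFractionRing.isFractionRing_of_isDomain_of_isLocalization P.primeCompl B k
  have hBdvr : IsDiscreteValuationRing B :=
    IsLocalization.AtPrime.isDiscreteValuationRing_of_dedekind_domain K[X] hP0 B
  have hφinj : Function.Injective φ := IsFractionRing.injective B k
  let A : ValuationSubring k := ValuationSubring.ofSubring φ.range (by
    intro z
    rcases ValuationRing.isInteger_or_isInteger B z with ⟨b, hb⟩ | ⟨b, hb⟩
    · exact Or.inl ⟨b, hb⟩
    · exact Or.inr ⟨b, hb⟩)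
  have hmemA : ∀ z, z ∈ A ↔ ∃ b, φ b = z := fun z => by
    rw [ValuationSubring.mem_ofSubring]
    rfl
  let j : B →+* A := φ.codRestrict A.toSubring fun b => (hmemA _).2 ⟨b, rfl⟩
  have hj : Function.Bijective j := by
    constructor
    · intro a b hab
      exact hφinj (congrArg (fun z : A => (z : k)) hab)
    · rintro ⟨z, hz⟩
      obtain ⟨b, hb⟩ := (hmemA z).1 hz
      exact ⟨b, Subtype.ext hb⟩
  let eq : B ≃+* A := RingEquiv.ofBijective j hj
  have hunit0 : ∀ p : P.primeCompl, IsUnit ((AdjoinRoot.mk π) (p : K[X])) := by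
    intro p
    rw [isUnit_iff_ne_zero]
    intro h
    exact p.2 ((hmemP _).2 (AdjoinRoot.mk_eq_zero.1 h))
  let ρ0 : B →+* AdjoinRoot π := IsLocalization.lift (M := P.primeCompl) (g := AdjoinRoot.mk π) hunit0
  have hρ0 : ∀ p : K[X], ρ0 (algebraMap K[X] B p) = AdjoinRoot.mk π p := fun p =>
    IsLocalization.lift_eq hunit0 p
  refine ⟨A, ρ0.comp (eq.symm : A →+* B), ?_, ?_⟩
  · intro c
    obtain ⟨p, rfl⟩ := AdjoinRoot.mk_surjective c
    refine ⟨j (algebraMap K[X] B p), ?_⟩
    change ρ0 (eq.symm (eq (algebraMap K[X] B p))) = _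
    rw [RingEquiv.symm_apply_apply, hρ0]
  · intro p q hq
    rw [hmemA]
    have hq' : q ∈ P.primeCompl := fun h => hq ((hmemP q).1 h)
    refine ⟨IsLocalization.mk' B p (⟨q, hq'⟩ : P.primeCompl), ?_⟩
    have hq0 : aeval t q ≠ 0 := by
      rw [Ne, map_eq_zero_iff _ hinj]
      rintro rfl
      exact hq (dvd_zero _)
    rw [eq_div_iff hq0, ← hφ, ← hφ, ← map_mul, IsLocalization.mk'_spec B p (⟨q, hq'⟩ : P.primeCompl)]

/-- simple transcendental extensions -/
theorem FV.trans {K k : Type} [Field K] [Field k] [Algebra K k] (h : FV K) (t : k)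
    (ht : Transcendental K t) (htop : IntermediateField.adjoin K {t} = ⊤) : FV k := by
  classical
  intro S
  have hrep : ∀ z : k, ∃ p q : K[X], q ≠ 0 ∧ z = aeval t p / aeval t q := by
    intro z
    have hz : z ∈ IntermediateField.adjoin K {t} := by
      rw [htop]
      trivial
    rw [IntermediateField.mem_adjoin_simple_iff] at hz
    obtain ⟨p, q, rfl⟩ := hz
    by_cases hq : q = 0
    · exact ⟨0, 1, one_ne_zero, by simp [hq]⟩
    · exact ⟨p, q, hq, rfl⟩
  choose p q hq hpq using hrep
  set Q : K[X] := ∏ s ∈ S, q s with hQ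
  have hQ0 : Q ≠ 0 := Finset.prod_ne_zero_iff.2 fun s _ => hq s
  have hnu : ¬ IsUnit (1 + X * Q) := by
    intro hu
    have h1 : (1 + X * Q).natDegree = 0 := natDegree_eq_zero_of_isUnit hu
    have h2 : (X * Q).natDegree = Q.natDegree + 1 := natDegree_X_mul hQ0
    have h3 : (1 + X * Q).natDegree = (X * Q).natDegree := by
      rw [add_comm]
      exact natDegree_add_eq_left_of_natDegree_lt (by rw [natDegree_one, h2]; omega)
    omega
  have hn0 : 1 + X * Q ≠ 0 := by
    intro h0
    have h2 : (X * Q).natDegree = Q.natDegree + 1 := natDegree_X_mul hQ0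
    have h3 : X * Q = -1 := by linear_combination h0
    rw [h3, natDegree_neg, natDegree_one] at h2
    omega
  obtain ⟨π, hπ, hπd⟩ := WfDvdMonoid.exists_irreducible_factor hnu hn0
  have hfact : Fact (Irreducible π) := ⟨hπ⟩
  have hπQ : ¬ π ∣ Q := by
    intro hd
    apply hπ.not_isUnit
    rw [isUnit_iff_dvd_one]
    have h1 : (1 : K[X]) = (1 + X * Q) - X * Q := by ring
    rw [h1]
    exact dvd_sub hπd (Dvd.dvd.mul_left hd X)
  obtain ⟨A, ρ, hρ, hA⟩ := exists_place_irr t ht htop π hπ
  have hSA : ∀ s ∈ S, s ∈ A := by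
    intro s hs
    rw [hpq s]
    exact hA _ _ fun hd => hπQ (hd.trans (Finset.dvd_prod_of_mem q hs))
  have hfd : FiniteDimensional K (AdjoinRoot π) := (AdjoinRoot.powerBasis hπ.ne_zero).finite
  have hK1 : FV (AdjoinRoot π) := h.alg
  obtain ⟨B, hB, hBS⟩ : ∃ B : ValuationSubring (AdjoinRoot π),
      Finite (IsLocalRing.ResidueField B) ∧ ∀ s (hs : s ∈ S), ρ ⟨s, hSA s hs⟩ ∈ B := by
    obtain ⟨B, hB, hBS⟩ := hK1 (S.attach.image
      (fun s : {x // x ∈ S} => ρ ⟨s.1, hSA s.1 s.2⟩))
    exact ⟨B, hB, fun s hs => hBS _ (Finset.mem_image.2 ⟨⟨s, hs⟩, Finset.mem_attach _ _, rfl⟩)⟩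
  refine ⟨compV A ρ hρ B, ?_, ?_⟩
  · have hloc := compTo_local A ρ hρ B
    exact Finite.of_injective _ (IsLocalRing.ResidueField.map (compTo A ρ hρ B)).injective
  · intro s hs
    exact (mem_compV A ρ hρ).2 ⟨hSA s hs, ⟨ρ ⟨s, hSA s hs⟩, hBS s hs⟩, rfl⟩

theorem FV.simple {K k : Type} [Field K] [Field k] [Algebra K k] (h : FV K) (t : k)
    (htop : IntermediateField.adjoin K {t} = ⊤) : FV k := by
  by_cases ht : Transcendental K t
  · exact h.trans t ht htop
  · rw [Transcendental, not_not] at ht
    have h1 : FiniteDimensional K (IntermediateField.adjoin K {t}) :=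
      IntermediateField.adjoin.finiteDimensional (isAlgebraic_iff_isIntegral.1 ht)
    rw [htop] at h1
    have h2 : FiniteDimensional K k :=
      Module.Finite.equiv (IntermediateField.topEquiv (F := K) (E := k)).toLinearEquiv
    exact h.alg

/-- the rational numbers -/
theorem FV.rat : FV ℚ := by
  classical
  intro S
  obtain ⟨q, hq, hqp⟩ := Nat.exists_infinite_primes (S.sup (fun s => s.den) + 1)
  have hqi : Prime (q : ℤ) := Nat.prime_iff_prime_int.1 hqp
  set P : Ideal ℤ := Ideal.span {(q : ℤ)} with hP
  have hPp : P.IsPrime := by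
    rw [hP, Ideal.span_singleton_prime hqi.ne_zero]
    exact hqi
  have hmemP : ∀ n : ℤ, n ∈ P ↔ (q : ℤ) ∣ n := by
    intro p
    rw [hP, Ideal.mem_span_singleton]
  have hunit : ∀ p : P.primeCompl, IsUnit (algebraMap ℤ ℚ (p : ℤ)) := by
    intro p
    rw [isUnit_iff_ne_zero, eq_intCast, Ne, Int.cast_eq_zero]
    intro h
    apply p.2
    rw [h]
    exact P.zero_mem
  let φ : Localization.AtPrime P →+* ℚ :=
    IsLocalization.lift (M := P.primeCompl) (g := algebraMap ℤ ℚ) hunit
  have hφ : ∀ p : ℤ, φ (algebraMap ℤ (Localization.AtPrime P) p) = (p : ℚ) := fun p =>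
    IsLocalization.lift_eq hunit p
  obtain ⟨O, hO, hloc⟩ := IsLocalRing.exists_factor_valuationRing φ
  have hint : ∀ n : ℤ, (n : ℚ) ∈ O := fun n => by
    rw [← hφ]
    exact hO _
  have hqn : ((q : ℤ) : ℚ) ∈ O.nonunits := by
    rw [← hφ]
    set a := algebraMap ℤ (Localization.AtPrime P) (q : ℤ) with ha
    have h2 : φ a ∈ O.nonunits ↔ (⟨φ a, hO a⟩ : O) ∈ IsLocalRing.maximalIdeal O :=
      O.coe_mem_nonunits_iff (a := ⟨φ a, hO a⟩)
    rw [h2, IsLocalRing.mem_maximalIdeal, mem_nonunits_iff]
    intro h3
    have h4 : IsUnit a := hloc.map_nonunit a h3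
    rw [ha, IsLocalization.AtPrime.isUnit_to_map_iff (Localization.AtPrime P) P] at h4
    exact h4 (Ideal.mem_span_singleton_self _)
  -- integers prime to `q` are units
  have hnon : ∀ n : ℤ, (n : ℚ) ∈ O.nonunits → (q : ℤ) ∣ n := by
    intro n hn
    by_contra hnd
    have hcop : IsCoprime (q : ℤ) n := (hqi.coprime_iff_not_dvd).2 hnd
    obtain ⟨u, v, huv⟩ := hcop
    have h1 : (1 : ℚ) ∈ O.nonunits := by
      have h2 : (1 : ℚ) = (u : ℚ) * ((q : ℤ) : ℚ) + (v : ℚ) * (n : ℚ) := by
        rw [← Int.cast_mul, ← Int.cast_mul, ← Int.cast_add, huv, Int.cast_one]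
      rw [h2]
      exact add_mem (nonunit_mul (hint u) hqn) (nonunit_mul (hint v) hn)
    rw [ValuationSubring.mem_nonunits_iff_or] at h1
    rcases h1 with h1 | h1
    · exact one_ne_zero h1
    · rw [inv_one] at h1
      exact h1 (one_mem _)
  have hinv : ∀ n : ℤ, ¬ (q : ℤ) ∣ n → (n : ℚ)⁻¹ ∈ O := by
    intro n hn
    by_contra hcon
    apply hn
    apply hnon
    rw [ValuationSubring.mem_nonunits_iff_or]
    exact Or.inr hcon
  have hden : ∀ x : ℚ, x ∈ O → ¬ (q : ℤ) ∣ (x.den : ℤ) := by
    intro x hx hd
    have h1 : (x.num : ℚ) = x * (x.den : ℚ) := by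
      rw [mul_comm]
      exact (Rat.den_mul_eq_num x).symm
    have h2 : ((x.den : ℤ) : ℚ) ∈ O.nonunits := by
      obtain ⟨c, hc⟩ := hd
      rw [hc, mul_comm, Int.cast_mul]
      exact nonunit_mul (hint c) hqn
    have h3 : (x.num : ℚ) ∈ O.nonunits := by
      rw [h1]
      have h4 : ((x.den : ℕ) : ℚ) = ((x.den : ℤ) : ℚ) := by push_cast; rfl
      rw [h4]
      exact nonunit_mul hx h2
    have h5 := hnon _ h3
    have h6 : IsCoprime x.num (x.den : ℤ) := Int.isCoprime_iff_gcd_eq_one.2 (by
      have := x.reduced
      rw [Nat.Coprime] at this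
      simpa [Int.gcd] using this)
    exact hqi.not_isUnit (h6.isUnit_of_dvd' h5 hd)
  refine ⟨O, ?_, ?_⟩
  · -- the residue field is a quotient of `ℤ / q`
    let i : ℤ →+* O := Int.castRingHom O
    let τ : ℤ →+* IsLocalRing.ResidueField O := (IsLocalRing.residue O).comp i
    have hτ : Function.Surjective τ := by
      intro y
      obtain ⟨⟨x, hx⟩, rfl⟩ := IsLocalRing.residue_surjective y
      have hcop : IsCoprime (q : ℤ) (x.den : ℤ) := (hqi.coprime_iff_not_dvd).2 (hden x hx)
      obtain ⟨u, v, huv⟩ := hcop
      refine ⟨v * x.num, ?_⟩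
      change IsLocalRing.residue O (i (v * x.num)) = _
      rw [← sub_eq_zero, ← map_sub, IsLocalRing.residue_eq_zero_iff,
        ← ValuationSubring.coe_mem_nonunits_iff]
      have h1 : ((i (v * x.num) - ⟨x, hx⟩ : O) : ℚ) = (-(x * (u : ℚ))) * ((q : ℤ) : ℚ) := by
        have h2 : ((i (v * x.num) : O) : ℚ) = (v : ℚ) * (x.num : ℚ) := by
          simp [i]
        have h3 : (x.num : ℚ) = x * (x.den : ℚ) := by
          rw [mul_comm]
          exact (Rat.den_mul_eq_num x).symm
        have h4 : (u : ℚ) * ((q : ℤ) : ℚ) + (v : ℚ) * ((x.den : ℤ) : ℚ) = 1 := by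
          exact_mod_cast huv
        change ((i (v * x.num) : O) : ℚ) - x = _
        rw [h2, h3]
        push_cast at h4 ⊢
        linear_combination x * h4
      rw [h1]
      exact nonunit_mul (neg_mem (mul_mem hx (hint u))) hqn
    have hker : (q : ℤ) ∈ RingHom.ker τ := by
      rw [RingHom.mem_ker]
      change IsLocalRing.residue O (i (q : ℤ)) = 0
      rw [IsLocalRing.residue_eq_zero_iff, ← ValuationSubring.coe_mem_nonunits_iff]
      have h1 : ((i (q : ℤ) : O) : ℚ) = ((q : ℤ) : ℚ) := by simp [i]
      rw [h1]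
      exact hqn
    have h5 : Finite (ℤ ⧸ RingHom.ker τ) := by
      have h6 : (RingHom.ker τ) ≠ ⊥ := by
        intro h0
        rw [h0, Ideal.mem_bot] at hker
        exact hqi.ne_zero hker
      exact Ideal.finiteQuotientOfFreeOfNeBot _ h6
    exact Finite.of_equiv _ (RingHom.quotientKerEquivOfSurjective hτ).toEquiv
  · intro s hs
    have h1 : s.den < q := by
      have h2 : s.den ≤ S.sup (fun s => s.den) := Finset.le_sup (f := fun s : ℚ => s.den) hs
      omega
    have h2 : ¬ (q : ℤ) ∣ (s.den : ℤ) := by
      intro hd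
      have h3 := Nat.le_of_dvd s.den_pos (Int.natCast_dvd_natCast.1 hd)
      omega
    have h3 : s = (s.num : ℚ) * ((s.den : ℤ) : ℚ)⁻¹ := by
      have h4 := Rat.num_div_den s
      rw [div_eq_mul_inv] at h4
      push_cast
      exact h4.symm
    rw [h3]
    exact mul_mem (hint _) (hinv _ h2)

/-- the prime field -/
theorem FV.bot (E : Type) [Field E] : FV (⊥ : Subfield E) := by
  obtain ⟨p, hp⟩ := CharP.exists E
  rcases CharP.char_is_prime_or_zero E p with hpp | rfl
  · have hfact : Fact p.Prime := ⟨hpp⟩
    let _ : Algebra (ZMod p) E := ZMod.algebra E p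
    have h1 : (⊥ : Subfield E) = (algebraMap (ZMod p) E).fieldRange :=
      Subfield.bot_eq_of_zMod_algebra p
    have h2 : Finite (⊥ : Subfield E) := by
      rw [h1]
      exact Finite.of_surjective _ (algebraMap (ZMod p) E).rangeRestrictField_bijective.2
    exact FV.of_finite _
  · have hcz : CharZero E := CharP.charP_to_charZero E
    have h1 : (⊥ : Subfield E) = (algebraMap ℚ E).fieldRange := Subfield.bot_eq_of_charZero
    rw [h1]
    exact FV.rat.of_surjective _ (algebraMap ℚ E).rangeRestrictField_bijective.2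

theorem FV.closure {E : Type} [Field E] (s : Finset E) : FV (Subfield.closure (s : Set E)) := by
  classical
  induction s using Finset.induction_on with
  | empty =>
    rw [Finset.coe_empty, Subfield.closure_empty]
    exact FV.bot E
  | insert a s _ ih =>
    set T := Subfield.closure (s : Set E) with hT
    have h1 : Subfield.closure ((insert a s : Finset E) : Set E) =
        (IntermediateField.adjoin T {a}).toSubfield := by
      apply le_antisymm
      · rw [Subfield.closure_le]
        intro x hx
        rcases Finset.mem_insert.1 hx with rfl | hx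
        · exact IntermediateField.mem_adjoin_simple_self T x
        · exact (IntermediateField.adjoin T {a}).algebraMap_mem ⟨x, Subfield.subset_closure hx⟩
      · have h2 : IntermediateField.adjoin T {a} ≤
            ({ toSubalgebra :=
                { carrier := (Subfield.closure ((insert a s : Finset E) : Set E) : Set E)
                  mul_mem' := fun ha hb => mul_mem ha hb
                  add_mem' := fun ha hb => add_mem ha hb
                  algebraMap_mem' := fun r =>
                    Subfield.closure_mono (by simp) r.2 }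
               inv_mem' := fun x hx => inv_mem hx } : IntermediateField T E) := by
          rw [IntermediateField.adjoin_simple_le_iff]
          exact Subfield.subset_closure (by simp)
        exact h2
    rw [h1]
    have h3 : IntermediateField.adjoin T
        {(⟨a, IntermediateField.mem_adjoin_simple_self T a⟩ : IntermediateField.adjoin T {a})} =
        ⊤ := by
      rw [eq_top_iff]
      rintro ⟨x, hx⟩ -
      have h4 : IntermediateField.adjoin T {a} ≤ (IntermediateField.adjoin T
          {(⟨a, IntermediateField.mem_adjoin_simple_self T a⟩ :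
            IntermediateField.adjoin T {a})}).map (IntermediateField.adjoin T {a}).val := by
        rw [IntermediateField.adjoin_simple_le_iff]
        exact ⟨_, IntermediateField.mem_adjoin_simple_self T _, rfl⟩
      obtain ⟨y, hy, hyx⟩ := h4 hx
      have h5 : y = ⟨x, hx⟩ := Subtype.ext hyx
      rw [← h5]
      exact hy
    exact ih.simple (k := IntermediateField.adjoin T {a}) _ h3

/-- **all finitely generated fields** -/
theorem FV.of_fg {E : Type} [Field E] (s : Finset E) (hs : Subfield.closure (s : Set E) = ⊤) :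
    FV E := by
  have h1 := FV.closure s
  rw [hs] at h1
  exact h1.of_surjective (Subfield.subtype ⊤) fun x => ⟨⟨x, trivial⟩, rfl⟩

end Pool.Agent.W623.SecF
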