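import Mathlib

/-! # The local ring of a rational point of the line -/

namespace Pool.Agent.W623.SecF

open Polynomial

theorem exists_dvr {K k : Type*} [Field K] [Field k] [Algebra K k] (t : k)
    (ht : Transcendental K t) (htop : IntermediateField.adjoin K {t} = ⊤) :
    ∃ (A : ValuationSubring k) (_ : IsDiscreteValuationRing A) (ρ : A →+* K) (i : K[X] →+* A),
      Function.Surjective ρ ∧ (∀ p, ρ (i p) = p.eval 0) ∧
      (∀ p, ((i p : A) : k) = aeval t p) ∧ Irreducible (i X) ∧
      (∀ p : K[X], p.eval 0 ≠ 0 → IsUnit (i p)) := by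
  classical
  set P : Ideal K[X] := Ideal.span {X} with hP
  have hmemP : ∀ p : K[X], p ∈ P ↔ p.eval 0 = 0 := by
    intro p
    rw [hP, Ideal.mem_span_singleton, X_dvd_iff, coeff_zero_eq_eval_zero]
  have hPp : P.IsPrime := by
    rw [hP, Ideal.span_singleton_prime X_ne_zero]
    exact prime_X
  have hP0 : P ≠ ⊥ := by
    rw [hP, Ne, Ideal.span_singleton_eq_bot]
    exact X_ne_zero
  have hinj : Function.Injective (aeval t : K[X] →ₐ[K] k) := transcendental_iff_injective.1 ht
  let _ : Algebra K[X] k := ((aeval t : K[X] →ₐ[K] k) : K[X] →+* k).toAlgebra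
  have halg : ∀ p : K[X], algebraMap K[X] k p = aeval t p := fun p => rfl
  have hfaith : FaithfulSMul K[X] k := (faithfulSMul_iff_algebraMap_injective _ _).2 hinj
  have hfrac : IsFractionRing K[X] k := by
    apply IsFractionRing.of_field
    intro z
    have hz : z ∈ IntermediateField.adjoin K {t} := by
      rw [htop]
      trivial
    rw [IntermediateField.mem_adjoin_simple_iff] at hz
    exact hz
  have hunit : ∀ p : P.primeCompl, IsUnit (algebraMap K[X] k (p : K[X])) := by
    intro p
    rw [isUnit_iff_ne_zero, halg, Ne, map_eq_zero_iff _ hinj]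
    intro h
    apply p.2
    rw [h]
    exact P.zero_mem
  set B := Localization.AtPrime P with hB
  let φ : B →+* k := IsLocalization.lift (M := P.primeCompl) (g := algebraMap K[X] k) hunit
  have hφ : ∀ p : K[X], φ (algebraMap K[X] B p) = aeval t p := fun p =>
    IsLocalization.lift_eq hunit p
  let _ : Algebra B k := φ.toAlgebra
  have htower : IsScalarTower K[X] B k := IsScalarTower.of_algebraMap_eq fun p => (hφ p).symm
  have hBfrac : IsFractionRing B k :=
    IsFractionRing.isFractionRing_of_isDomain_of_isLocalization P.primeCompl B k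
  have hBdvr : IsDiscreteValuationRing B :=
    IsLocalization.AtPrime.isDiscreteValuationRing_of_dedekind_domain K[X] hP0 B
  have hφinj : Function.Injective φ := IsFractionRing.injective B k
  let A : ValuationSubring k := ValuationSubring.ofSubring φ.range (by
    intro z
    rcases ValuationRing.isInteger_or_isInteger B z with ⟨b, hb⟩ | ⟨b, hb⟩
    · exact Or.inl ⟨b, hb⟩
    · exact Or.inr ⟨b, hb⟩)
  have hmemA : ∀ z, z ∈ A ↔ ∃ b, φ b = z := fun z => by
    rw [ValuationSubring.mem_ofSubring]
    rfl
  let j : B →+* A := φ.codRestrict A.toSubring fun b => (hmemA _).2 ⟨b, rfl⟩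
  have hj : Function.Bijective j := by
    constructor
    · intro a b hab
      exact hφinj (congrArg (fun z : A => (z : k)) hab)
    · rintro ⟨z, hz⟩
      obtain ⟨b, hb⟩ := (hmemA z).1 hz
      exact ⟨b, Subtype.ext hb⟩
  let eq : B ≃+* A := RingEquiv.ofBijective j hj
  have hAdvr : IsDiscreteValuationRing A :=
    IsDiscreteValuationRing.RingEquivClass.isDiscreteValuationRing eq
  have hunit0 : ∀ p : P.primeCompl, IsUnit ((evalRingHom (0 : K)) (p : K[X])) := by
    intro p
    rw [isUnit_iff_ne_zero]
    intro h
    exact p.2 ((hmemP _).2 h)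
  let ρ0 : B →+* K := IsLocalization.lift (M := P.primeCompl) (g := evalRingHom (0 : K)) hunit0
  have hρ0 : ∀ p : K[X], ρ0 (algebraMap K[X] B p) = p.eval 0 := fun p =>
    IsLocalization.lift_eq hunit0 p
  refine ⟨A, hAdvr, ρ0.comp (eq.symm : A →+* B), j.comp (algebraMap K[X] B), ?_, ?_, ?_, ?_, ?_⟩
  · intro c
    refine ⟨j (algebraMap K[X] B (C c)), ?_⟩
    change ρ0 (eq.symm (eq (algebraMap K[X] B (C c)))) = c
    rw [RingEquiv.symm_apply_apply, hρ0, eval_C]
  · intro p
    change ρ0 (eq.symm (eq (algebraMap K[X] B p))) = _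
    rw [RingEquiv.symm_apply_apply, hρ0]
  · intro p
    exact hφ p
  · have h1 : Irreducible (algebraMap K[X] B X) := by
      rw [IsDiscreteValuationRing.irreducible_iff_uniformizer]
      have h2 := IsLocalization.AtPrime.map_eq_maximalIdeal P B
      have h3 : ∀ I : Ideal K[X], I = Ideal.span {X} →
          Ideal.map (algebraMap K[X] B) I = Ideal.span {algebraMap K[X] B X} := by
        rintro I rfl
        rw [Ideal.map_span, Set.image_singleton]
      rw [← h2]
      exact h3 P hP
    exact (MulEquiv.irreducible_iff (eq : B ≃* A)).2 h1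
  · intro p hp
    have h1 : IsUnit (algebraMap K[X] B p) := by
      rw [IsLocalization.AtPrime.isUnit_to_map_iff B P]
      intro h
      exact hp ((hmemP p).1 h)
    exact h1.map j

end Pool.Agent.W623.SecF
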