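import Pool.Agent.W623.SecD.B1b

/-! # Elements fixed by the decomposition group -/

open Polynomial
open scoped Pointwise

namespace Pool.Agent.W623.SecF

open Pool.Agent.W623.SecC Pool.Agent.W623.SecD

universe u w

open W327.SecC (exists_den nonunits_mul_left)

/-- the residue field of the integral closure is algebraically closed -/
theorem residue_closed (A : Type u) (kb : Type w) [CommRing A] [Field kb] [Algebra A kb]
    [IsAlgClosed kb] (P : Ideal (integralClosure A kb)) [P.IsMaximal] :
    letI := Ideal.Quotient.field P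
    IsAlgClosed (integralClosure A kb ⧸ P) := by
  let _ := Ideal.Quotient.field P
  refine IsAlgClosed.of_exists_root _ fun p hp hirr => ?_
  obtain ⟨q, hq, hdeg, hmon⟩ := lifts_and_natDegree_eq_and_monic
    ((mem_lifts _).2 (map_surjective _ Ideal.Quotient.mk_surjective p)) hp
  have hd : (q.map (algebraMap (integralClosure A kb) kb)).degree ≠ 0 := by
    rw [degree_eq_natDegree (hmon.map _).ne_zero, hmon.natDegree_map, hdeg]
    exact_mod_cast hirr.natDegree_pos.ne'
  obtain ⟨x, hx⟩ := IsAlgClosed.exists_root _ hd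
  have hx' : aeval x q = 0 := by
    rw [IsRoot.def, eval_map] at hx
    exact hx
  have hxi : IsIntegral A x := isIntegral_trans (R := A) (A := integralClosure A kb) x ⟨q, hmon, hx'⟩
  refine ⟨Ideal.Quotient.mk P ⟨x, hxi⟩, ?_⟩
  rw [← hq, eval_map, eval₂_at_apply]
  have h1 : q.eval (⟨x, hxi⟩ : integralClosure A kb) = 0 := by
    apply Subtype.ext
    have h2 : aeval x q = algebraMap (integralClosure A kb) kb (q.eval ⟨x, hxi⟩) :=
      eval₂_at_apply (p := q) (algebraMap (integralClosure A kb) kb) (⟨x, hxi⟩ : integralClosure A kb)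
    rw [hx'] at h2
    exact h2.symm
  rw [h1, map_zero]

section main

variable (A k : Type u) (kb : Type w) [CommRing A] [IsDomain A] [ValuationRing A] [Field k]
    [Field kb] [Algebra A k] [Algebra k kb] [Algebra A kb] [IsScalarTower A k kb]
    [IsFractionRing A k] [CharZero k] [IsAlgClosure k kb]

theorem exists_lift (m : Ideal A) (P : Ideal (integralClosure A kb)) [P.IsPrime] [P.LiesOver m]
    (σ : (integralClosure A kb ⧸ P) ≃ₐ[A ⧸ m] (integralClosure A kb ⧸ P)) :
    ∃ g : kb ≃ₐ[k] kb, ∀ (x : integralClosure A kb), ∃ y : integralClosure A kb, (y : kb) = g x ∧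
      Ideal.Quotient.mk P y = σ (Ideal.Quotient.mk P x) := by
  have := smulComm A k kb
  have := isInv A k kb
  let _ : TopologicalSpace (integralClosure A kb) := ⊥
  have : DiscreteTopology (integralClosure A kb) := ⟨rfl⟩
  have : ContinuousSMul (kb ≃ₐ[k] kb) (integralClosure A kb) := by
    rw [continuousSMul_iff_stabilizer_isOpen]
    intro x
    have h1 := stabilizer_isOpen_of_isIntegral (K := k) (x : kb)
    convert h1 using 2
    ext g
    rw [MulAction.mem_stabilizer_iff, MulAction.mem_stabilizer_iff]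
    constructor
    · intro h
      exact congrArg (fun z : integralClosure A kb => (z : kb)) h
    · intro h
      exact Subtype.ext h
  obtain ⟨⟨g, hgs⟩, hg⟩ :=
    Ideal.Quotient.stabilizerHom_surjective_of_profinite (G := (kb ≃ₐ[k] kb)) m P σ
  refine ⟨g, fun x => ⟨g • x, rfl, ?_⟩⟩
  have h1 := DFunLike.congr_fun hg (Ideal.Quotient.mk P x)
  rw [Ideal.Quotient.stabilizerHom_apply] at h1
  exact h1

/-- separable elements fixed by all automorphisms -/
theorem base_of_fixed {κ : Type*} {l : Type*} [Field κ] [Field l] [Algebra κ l] [IsAlgClosed l]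
    [Algebra.IsAlgebraic κ l] (t : l) (hsep : (minpoly κ t).Separable)
    (h : ∀ σ : l ≃ₐ[κ] l, σ t = t) : ∃ r, algebraMap κ l r = t := by
  have hacl : IsAlgClosure κ l := ⟨inferInstance, inferInstance⟩
  have hnor : Normal κ l := IsAlgClosure.normal _ _
  have h1 : t ∈ (⊥ : Subalgebra κ l) := by
    by_contra hnot
    obtain ⟨t', ht', hct⟩ := (notMem_iff_exists_ne_and_isConjRoot hsep (hnor.splits t)).1 hnot
    obtain ⟨σ, hσ⟩ := hct.symm.exists_algEquiv
    exact ht' ((h σ).symm.trans hσ)
  exact h1

/-- the base change of the residue fields -/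
theorem base_aux (m : Ideal A) [m.IsMaximal] (P : Ideal (integralClosure A kb)) [P.IsPrime]
    [P.LiesOver m] (f : A[X]) (hs : (f.map (Ideal.Quotient.mk m)).Separable)
    (θ : integralClosure A kb) (hθ : eval₂ (algebraMap A (integralClosure A kb)) θ f = 0)
    (h : ∀ g : kb ≃ₐ[k] kb, (∀ x : integralClosure A kb, ∃ (y : integralClosure A kb), (y : kb) = g x ∧
      (y ∈ P ↔ x ∈ P)) → g θ = θ) :
    ∃ b : A, algebraMap A (integralClosure A kb) b - θ ∈ P := by
  have hkb : IsAlgClosed kb := IsAlgClosure.isAlgClosed k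
  have hPA : P.comap (algebraMap A (integralClosure A kb)) = m :=
    (Ideal.LiesOver.over (P := P) (p := m)).symm
  have hPm : P.IsMaximal := Ideal.isMaximal_of_isIntegral_of_isMaximal_comap P (by
    rw [hPA]; infer_instance)
  let _ : Field (A ⧸ m) := Ideal.Quotient.field _
  let _ : Field (integralClosure A kb ⧸ P) := Ideal.Quotient.field P
  have hint : Algebra.IsIntegral (A ⧸ m) (integralClosure A kb ⧸ P) := inferInstance
  have halg : Algebra.IsAlgebraic (A ⧸ m) (integralClosure A kb ⧸ P) := ⟨fun x => by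
    have h1 : IsIntegral (A ⧸ m) x := hint.isIntegral x
    exact h1.isAlgebraic⟩
  have hcl : IsAlgClosed (integralClosure A kb ⧸ P) := residue_closed A kb P
  have hroot : aeval (Ideal.Quotient.mk P θ) (f.map (Ideal.Quotient.mk m)) = 0 := by
    rw [aeval_def, eval₂_map]
    have h1 : (algebraMap (A ⧸ m) (integralClosure A kb ⧸ P)).comp (Ideal.Quotient.mk m) =
        (Ideal.Quotient.mk P).comp (algebraMap A (integralClosure A kb)) := by
      ext a
      rfl
    rw [h1, ← hom_eval₂, hθ, map_zero]
  have hsep : (minpoly (A ⧸ m) (Ideal.Quotient.mk P θ)).Separable :=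
    hs.of_dvd (minpoly.dvd _ _ hroot)
  obtain ⟨r, hr⟩ := base_of_fixed (Ideal.Quotient.mk P θ) hsep (fun σ => by
    obtain ⟨g, hg⟩ := exists_lift A k kb m P σ
    have h1 := h g (fun x => by
      obtain ⟨y, hy, hyx⟩ := hg x
      refine ⟨y, hy, ?_⟩
      rw [← Ideal.Quotient.eq_zero_iff_mem, hyx, EmbeddingLike.map_eq_zero_iff,
        Ideal.Quotient.eq_zero_iff_mem])
    obtain ⟨y, hy, hyx⟩ := hg θ
    rw [← hyx]
    congr 1
    exact Subtype.ext (hy.trans h1))
  obtain ⟨b, rfl⟩ := Ideal.Quotient.mk_surjective r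
  refine ⟨b, ?_⟩
  rw [← Ideal.Quotient.eq_zero_iff_mem, map_sub, sub_eq_zero]
  exact hr

end main

section val

variable {A k : Type u} {kb : Type w} [CommRing A] [IsDomain A] [ValuationRing A] [Field k]
    [Field kb] [Algebra A k] [Algebra k kb] [Algebra A kb] [IsScalarTower A k kb]
    [IsFractionRing A k] [CharZero k] [IsAlgClosure k kb] (V : ValuationSubring kb)
    (hV : ∀ a : A, algebraMap A kb a ∈ V)
    (hm : ∀ a ∈ IsLocalRing.maximalIdeal A, algebraMap A kb a ∈ V.nonunits)

include hV in
omit [IsDomain A] [ValuationRing A] in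
lemma int_mem (x : integralClosure A kb) : (x : kb) ∈ V := by
  have h2 : IsIntegral V (x : kb) := by
    obtain ⟨f, hf, hfx⟩ := x.2
    refine ⟨f.map ((algebraMap A kb).codRestrict V.toSubring hV), hf.map _, ?_⟩
    rw [eval₂_map]
    exact hfx
  obtain ⟨y, hy⟩ := IsIntegrallyClosed.algebraMap_eq_of_integral (R := V) (K := kb) h2
  rw [← hy]
  exact y.2

include hV hm in
lemma nonunit_iff (a : A) : algebraMap A kb a ∈ V.nonunits ↔ a ∈ IsLocalRing.maximalIdeal A := by
  refine ⟨fun h => ?_, hm a⟩
  rw [IsLocalRing.mem_maximalIdeal]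
  rintro ⟨b, rfl⟩
  rcases (V.mem_nonunits_iff_or).1 h with h | h
  · exact (b.isUnit.map (algebraMap A kb)).ne_zero h
  · apply h
    have h1 : (algebraMap A kb (b : A))⁻¹ = algebraMap A kb ((b⁻¹ : Aˣ) : A) := by
      refine inv_eq_of_mul_eq_one_right ?_
      rw [← map_mul, Units.mul_inv, map_one]
    rw [h1]
    exact hV _

include hV hm in
/-- an automorphism which respects the nonunits among the integral elements respects `V` -/
lemma stab_mem (g : kb ≃ₐ[k] kb)
    (hg : ∀ x : integralClosure A kb, g x ∈ V.nonunits → (x : kb) ∈ V.nonunits) :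
    ∀ x ∈ V, g x ∈ V := by
  intro x hx
  have hinj : Function.Injective (algebraMap A kb) := by
    rw [IsScalarTower.algebraMap_eq A k kb]
    exact (algebraMap k kb).injective.comp (IsFractionRing.injective A k)
  have halg : IsAlgebraic A x :=
    (IsFractionRing.isAlgebraic_iff A k kb).2
      ((IsAlgClosure.isAlgebraic (R := k) (K := kb)).isAlgebraic x)
  obtain ⟨f, hf, i, hi⟩ := exists_prim' hinj x halg
  obtain ⟨s, hs, hsx⟩ := exists_den V A x hx _ (f.map (algebraMap A (integralClosure A kb)))
    le_rfl (by rw [aeval_map_algebraMap, hf]) ⟨i, by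
      rw [coeff_map]
      change algebraMap A kb (f.coeff i) ∉ V.nonunits
      intro h
      have h' := (nonunit_iff V hV hm (f.coeff i)).1 h
      rw [IsLocalRing.mem_maximalIdeal] at h'
      exact h' hi⟩
  have hint : ∀ b : integralClosure A kb, g (b : kb) ∈ V := by
    intro b
    have h1 : IsIntegral A (g (b : kb)) :=
      b.2.map ((g : kb →ₐ[k] kb).restrictScalars A)
    exact int_mem V hV ⟨_, h1⟩
  have hgs : g (s : kb) ∉ V.nonunits := fun h => hs (hg s h)
  have hu : IsU V (g (s : kb)) := by
    rw [ValuationSubring.mem_nonunits_iff_or, not_or, not_not] at hgs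
    exact ⟨hgs.1, hint s, hgs.2⟩
  have h1 : g x = g ((s : kb) * x) * (g (s : kb))⁻¹ := by
    rw [map_mul, mul_comm (g (s : kb)), mul_assoc, mul_inv_cancel₀ hu.1, mul_one]
  rw [h1]
  exact mul_mem (hint ⟨_, hsx⟩) hu.2.2

include hV hm in
/-- **Decomposition group**: an element `θ` of `kb`, a root of a polynomial with separable
reduction, which is fixed by the automorphisms that stabilise `V` is congruent to an element of
`A`. -/
theorem exists_near (f : A[X]) (hlc : IsUnit f.leadingCoeff)
    (hs : (f.map (IsLocalRing.residue A)).Separable) (θ : kb) (hθ : aeval θ f = 0)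
    (hfix : ∀ g : kb ≃ₐ[k] kb, (∀ x, g x ∈ V ↔ x ∈ V) → g θ = θ) :
    ∃ b : A, algebraMap A kb b - θ ∈ V.nonunits := by
  set P : Ideal (integralClosure A kb) :=
    (IsLocalRing.maximalIdeal V).comap (((algebraMap (integralClosure A kb) kb).codRestrict
      V.toSubring (int_mem V hV)) : integralClosure A kb →+* V) with hPdef
  have hPmem : ∀ x : integralClosure A kb, x ∈ P ↔ (x : kb) ∈ V.nonunits := by
    intro x
    exact (V.coe_mem_nonunits_iff (a := ⟨(x : kb), int_mem V hV x⟩)).symm
  have hPp : P.IsPrime := Ideal.comap_isPrime _ _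
  have hPA : P.comap (algebraMap A (integralClosure A kb)) = IsLocalRing.maximalIdeal A := by
    ext a
    rw [Ideal.mem_comap, hPmem, ← nonunit_iff V hV hm]
    rfl
  have hlo : P.LiesOver (IsLocalRing.maximalIdeal A) := ⟨hPA.symm⟩
  -- the root is integral
  have hθi : IsIntegral A θ := by
    obtain ⟨u, hu⟩ := hlc
    have hmon : (C ((u⁻¹ : Aˣ) : A) * f).Monic := by
      rw [Monic, leadingCoeff_mul, leadingCoeff_C, ← hu, Units.inv_mul]
    refine ⟨_, hmon, ?_⟩
    rw [eval₂_mul]
    change _ * aeval θ f = 0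
    rw [hθ, mul_zero]
  have hθ' : eval₂ (algebraMap A (integralClosure A kb)) ⟨θ, hθi⟩ f = 0 := by
    apply Subtype.ext
    have h5 := hom_eval₂ f (algebraMap A (integralClosure A kb))
      (algebraMap (integralClosure A kb) kb) ⟨θ, hθi⟩
    have h6 : (algebraMap (integralClosure A kb) kb).comp (algebraMap A (integralClosure A kb)) =
        algebraMap A kb := rfl
    rw [h6] at h5
    exact h5.trans hθ
  obtain ⟨b, hb⟩ := base_aux A k kb (IsLocalRing.maximalIdeal A) P f hs ⟨θ, hθi⟩ hθ' (by
    intro g hg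
    have h1 : ∀ x : integralClosure A kb, g (x : kb) ∈ V.nonunits → (x : kb) ∈ V.nonunits := by
      intro x hx
      obtain ⟨y, hy, hyx⟩ := hg x
      rw [← hy, ← hPmem, hyx, hPmem] at hx
      exact hx
    have h2 : ∀ x : integralClosure A kb, g.symm (x : kb) ∈ V.nonunits →
        (x : kb) ∈ V.nonunits := by
      intro x hx
      have h3 : IsIntegral A (g.symm (x : kb)) :=
        x.2.map ((g.symm : kb →ₐ[k] kb).restrictScalars A)
      obtain ⟨y, hy, hyx⟩ := hg ⟨_, h3⟩
      rw [hPmem, hPmem] at hyx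
      have h5 := hyx.2 hx
      rw [hy] at h5
      change g (g.symm (x : kb)) ∈ _ at h5
      rwa [g.apply_symm_apply] at h5
    have h3 : ∀ x, g x ∈ V ↔ x ∈ V := by
      intro x
      refine ⟨fun h => ?_, stab_mem V hV hm g h1 x⟩
      have h5 := stab_mem V hV hm g.symm h2 _ h
      rwa [g.symm_apply_apply] at h5
    exact hfix g h3)
  refine ⟨b, ?_⟩
  rw [hPmem] at hb
  exact hb

end val

end Pool.Agent.W623.SecF
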