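import Pool.Agent.W623.SecD.TwoVal
import Pool.Agent.W623.SecE.Abs2

/-! # The type of a section at a place of odd valuation -/

namespace Pool.Agent.W623.SecC

open Pool.Agent.W620.SC Polynomial Pool.Agent.W623.SecD Pool.Agent.W623.SecE

universe u v

namespace Dat

section abs

variable {k : Type*} {A : Type u} {M : Type v} [Field k] [Field A] [Field M] [Algebra k A]
  (D : Dat k A M)

/-- the type is `r`: only `x - θ r` has odd parity -/
structure Typ {X : Type*} (x : M) (θ : X → A) (r : X) : Prop where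
  odd : ∀ i, i ≠ r → ∀ n : ℤ, D.Par ((x - D.ι (θ i)) / (x - D.ι (θ r))) n → Odd n
  even : ∀ i j, i ≠ r → j ≠ r → ∀ n : ℤ, D.Par ((x - D.ι (θ i)) / (x - D.ι (θ j))) n → Even n
  ex : ∀ i j, ∃ n : ℤ, D.Par ((x - D.ι (θ i)) / (x - D.ι (θ j))) n

variable {D} in
theorem Typ.fix {X : Type*} [Fintype X] [DecidableEq X] (hX4 : 4 ≤ Fintype.card X) {x : M}
    {θ : X → A} {r : X} (h : D.Typ x θ r) (π : Equiv.Perm X) (hπ : ∀ i, D.φ (θ i) = θ (π i))
    (hx : ∀ σ, D.s σ x = x) : π r = r := by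
  by_contra hne
  obtain ⟨t, ht⟩ : ∃ t, t ∉ ({r, π.symm r} : Finset X) := by
    by_contra hcon
    push Not at hcon
    have h2 : (Finset.univ : Finset X) ⊆ {r, π.symm r} := fun t _ => hcon t
    have h3 := Finset.card_le_card h2
    have h4 : ({r, π.symm r} : Finset X).card ≤ 2 := Finset.card_le_two
    rw [Finset.card_univ] at h3
    omega
  rw [Finset.mem_insert, Finset.mem_singleton, not_or] at ht
  obtain ⟨n, hn⟩ := h.ex t r
  have h1 := h.odd t ht.1 n hn
  have h2 := hn.map_φ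
  rw [map_div₀, map_sub, map_sub, hx, D.hι, D.hι, hπ, hπ] at h2
  have h3 := h.even (π t) (π r) (fun h => ht.2 (by rw [← h, π.symm_apply_apply])) hne n h2
  exact (Int.not_even_iff_odd.2 h1) h3

theorem absB2 [CharZero k] [IsAlgClosed A] [Algebra.IsAlgebraic k A] (hA8 : PartA8b.{u, v})
    (V' : ValuationSubring A) (hVV : V' ≤ D.V) (hφV' : ∀ x, D.φ x ∈ V' ↔ x ∈ V')
    (h2 : (2 : A)⁻¹ ∈ V') (q : ℕ) (hq2 : 2 ≤ q) (hq : ∀ x ∈ V', D.φ x - x ^ q ∈ V'.nonunits)
    {X : Type*} [Fintype X] [DecidableEq X] (hX : Even (Fintype.card X))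
    (hX4 : 4 ≤ Fintype.card X) (θ : X → A) (hθS : ∀ i, θ i ∈ D.S)
    (hθd : ∀ i j, i ≠ j → IsU V' (θ i - θ j)) (π : Equiv.Perm X)
    (hπ : ∀ i, D.φ (θ i) = θ (π i)) (x y : M) (hx : ∀ σ, D.s σ x = x) (hy : ∀ σ, D.s σ y = y)
    (hy0 : y ≠ 0) (c : A) (hcS : c ∈ D.S) (jc : ℤ) (hjc : Odd jc) (hc : IsU D.V (c / D.p ^ jc))
    (hxy : D.ι c * y ^ 2 = ∏ i, (x - D.ι (θ i))) (htr : ∀ a, D.ι a ≠ x)
    (hsq : ∀ i j, ∃ α : M, α ^ 2 = (x - D.ι (θ i)) / (x - D.ι (θ j))) (hroots : D.HasRoots) :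
    ∃ r, D.Typ x θ r := by
  have hxRS : x ∈ D.RS := fun σ _ => hx σ
  have hyRS : y ∈ D.RS := fun σ _ => hy σ
  have hne : ∀ i, x - D.ι (θ i) ≠ 0 := fun i h => htr (θ i) (sub_eq_zero.1 h).symm
  have hmem : ∀ i, x - D.ι (θ i) ∈ D.RS := fun i => sub_mem hxRS (D.ι_mem (hθS i))
  have hpar : ∀ i j, ∃ n : ℤ, D.Par ((x - D.ι (θ i)) / (x - D.ι (θ j))) n := by
    intro i j
    obtain ⟨α, hα⟩ := hsq i j
    exact D.exists_par (div_mem (hmem i) (hmem j)) (div_ne_zero (hne i) (hne j)) hα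
  choose n hn using hpar
  have hcoc : ∀ i j l, ((n i j : ZMod 2)) + n j l = n i l := by
    intro i j l
    have h1 := (hn i j).mul (hn j l)
    rw [div_mul_div_cancel₀ (hne j)] at h1
    have h3 := h1.unique (hn i l)
    rw [← h3, Int.cast_add]
  have hself : ∀ i, ((n i i : ZMod 2)) = 0 := fun i => by
    have := hcoc i i i
    simpa using this
  have hsymm : ∀ i j, ((n i j : ZMod 2)) = n j i := by
    intro i j
    have h1 := hcoc i j i
    rw [hself] at h1
    rcases zmod2_cases ((n i j : ZMod 2)) with h | h <;>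
      rcases zmod2_cases ((n j i : ZMod 2)) with h' | h' <;> rw [h, h'] at h1 ⊢
    · exact absurd h1 (by decide)
    · exact absurd h1 (by decide)
  have hφ : ∀ i j, ((n (π i) (π j) : ZMod 2)) = n i j := by
    intro i j
    have h1 := (hn i j).map_φ
    rw [map_div₀, map_sub, map_sub, hx, D.hι, D.hι, hπ, hπ] at h1
    exact (hn (π i) (π j)).unique h1
  have hsum : ∀ j, ∑ i, ((n i j : ZMod 2)) = 1 := by
    intro j
    have h1 := Par.prod (D := D) Finset.univ (fun i => (x - D.ι (θ i)) / (x - D.ι (θ j)))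
      (fun i => n i j) (fun i _ => hn i j)
    rw [Finset.prod_div_distrib, Finset.prod_const, Finset.card_univ, ← hxy] at h1
    obtain ⟨m, hm⟩ := hX
    have h3 : D.ι c * y ^ 2 / (x - D.ι (θ j)) ^ Fintype.card X =
        D.ι c * (y / (x - D.ι (θ j)) ^ m) ^ 2 := by
      rw [hm, ← two_mul, mul_comm 2 m, pow_mul, div_pow, mul_div_assoc]
    rw [h3] at h1
    have h4 := (Par.const hcS hc).mul (Par.sq (D := D)
      (u := y / (x - D.ι (θ j)) ^ m) (div_mem hyRS (pow_mem (hmem j) _))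
      (div_ne_zero hy0 (pow_ne_zero _ (hne j))))
    have h5 := h1.unique h4
    rw [Int.cast_sum, add_zero, zmod2_of_odd hjc] at h5
    exact h5
  suffices hE : ∀ i i' l l', i ≠ i' → l ≠ l' → ((n i i' : ZMod 2)) = 0 →
      ((n l l' : ZMod 2)) = 0 → ((n i l : ZMod 2)) = 1 → False by
    obtain ⟨r, -, h1, h2⟩ := comb_odd (fun i j => ((n i j : ZMod 2))) hcoc hX hX4 π hφ hsum hE
    refine ⟨r, ⟨fun i hi m hm => ?_, fun i j hi hj m hm => ?_, fun i j => ⟨n i j, hn i j⟩⟩⟩
    · apply zmod2_odd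
      rw [hm.unique (hn i r)]
      exact h1 i hi
    · apply zmod2_even
      rw [hm.unique (hn i j)]
      exact h2 i j hi hj
  intro i i' l l' hii hll hwi hwl hwil
  -- the elliptic curve
  have hil : i ≠ l := by
    rintro rfl
    rw [hself] at hwil
    exact absurd hwil (by decide)
  have hi'l : ((n i' l : ZMod 2)) = 1 := by
    rw [← hcoc i' i l, hsymm i' i, hwi, hwil, zero_add]
  have hil' : ((n i l' : ZMod 2)) = 1 := by
    rw [← hcoc i l l', hwl, hwil, add_zero]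
  have hi'l' : ((n i' l' : ZMod 2)) = 1 := by
    rw [← hcoc i' l l', hwl, hi'l, add_zero]
  have hne' : ∀ a b, ((n a b : ZMod 2)) = 1 → a ≠ b := by
    rintro a b h rfl
    rw [hself] at h
    exact absurd h (by decide)
  set t : Fin 3 → X := ![i', l, l'] with ht
  have hti : ∀ r, t r ≠ i := by
    intro r
    fin_cases r
    · exact hii.symm
    · exact hil.symm
    · exact (hne' _ _ hil').symm
  have htt : ∀ r r', r ≠ r' → t r ≠ t r' := by
    intro r r' hr
    fin_cases r <;> fin_cases r'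
    · exact absurd rfl hr
    · exact hne' _ _ hi'l
    · exact hne' _ _ hi'l'
    · exact (hne' _ _ hi'l).symm
    · exact absurd rfl hr
    · exact hll
    · exact (hne' _ _ hi'l').symm
    · exact hll.symm
    · exact absurd rfl hr
  have hd0 : ∀ r, θ (t r) - θ i ≠ 0 := fun r => (hθd _ _ (hti r)).1
  set e : Fin 3 → A := fun r => (θ (t r) - θ i)⁻¹ with he
  set z : M := (x - D.ι (θ i))⁻¹ with hz
  have hze : ∀ r, z - D.ι (e r) = D.ι (-(θ (t r) - θ i)⁻¹) *
      ((x - D.ι (θ (t r))) / (x - D.ι (θ i))) := by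
    intro r
    have h1 : D.ι (θ (t r)) - D.ι (θ i) ≠ 0 := by
      rw [← map_sub]
      exact (_root_.map_ne_zero _).2 (hd0 r)
    rw [hz, he, map_neg, map_inv₀, map_sub]
    have h3 := hne i
    field_simp
    ring
  have hepar : ∀ r, D.Par (z - D.ι (e r)) (0 + n (t r) i) := by
    intro r
    rw [hze]
    refine (Par.const_unit (neg_mem (inv_mem (sub_mem (hθS _) (hθS _)))) ?_).mul (hn _ _)
    exact ((hθd _ _ (hti r)).inv.neg).mono hVV
  have hprod := Par.prod (D := D) Finset.univ (fun r => z - D.ι (e r)) _ (fun r _ => hepar r)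
  obtain ⟨w, hw, hwz⟩ := hprod.exists_root (by
    apply zmod2_even
    rw [Int.cast_sum, Fin.sum_univ_three]
    simp only [zero_add]
    change ((n i' i : ZMod 2)) + n l i + n l' i = 0
    rw [hsymm i' i, hsymm l i, hsymm l' i, hwi, hwil, hil']
    decide)
  -- a power of `φ` fixes the roots and `w`
  set m := orderOf π with hm
  have hm0 : 0 < m := orderOf_pos π
  have hpowπ : ∀ (N : ℕ) (a : X), (D.φ ^ N) (θ a) = θ ((π ^ N) a) := by
    intro N
    induction N with
    | zero => intro a; rfl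
    | succ N ih =>
      intro a
      rw [pow_succ, pow_succ]
      change (D.φ ^ N) (D.φ (θ a)) = θ ((π ^ N) (π a))
      rw [hπ, ih]
  have hfix : ∀ (a : X), (D.φ ^ m) (θ a) = θ a := by
    intro a
    rw [hpowπ, hm, pow_orderOf_eq_one]
    rfl
  have hfix2 : ∀ (a : X), (D.φ ^ (m * 2)) (θ a) = θ a := by
    intro a
    rw [pow_mul, pow_two]
    change (D.φ ^ m) ((D.φ ^ m) (θ a)) = _
    rw [hfix, hfix]
  have hzfix : ∀ N : ℕ, (D.φ ^ N) (θ i) = θ i → D.s (D.φ ^ N) z = z := by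
    intro N hN
    rw [hz, map_inv₀, map_sub, hx, D.hι, hN]
  have hwfix : D.s (D.φ ^ (m * 2)) w = w := by
    have h1 : (D.s (D.φ ^ m) w) ^ 2 = w ^ 2 := by
      rw [← map_pow, hwz, map_prod]
      refine Finset.prod_congr rfl fun r _ => ?_
      rw [map_sub, hzfix m (hfix i), D.hι]
      congr 2
      simp only [he]
      rw [map_inv₀, map_sub, hfix, hfix]
    have h3 : D.s (D.φ ^ (m * 2)) w = D.s (D.φ ^ m) (D.s (D.φ ^ m) w) := by
      rw [pow_mul, pow_two, map_mul]
      rfl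
    rw [h3]
    rcases sq_eq_sq_iff_eq_or_eq_neg.1 h1 with h4 | h4
    · rw [h4, h4]
    · rw [h4, map_neg, h4, neg_neg]
  have hfin := (D.pw (m * 2)).ellB hA8 V' hVV h2 (q ^ (m * 2))
    (le_trans hq2 (Nat.le_self_pow (by omega) q)) (D.powQB V' hφV' q hq (m * 2)) e
    (fun r => inv_mem (sub_mem (hθS _) (hθS _))) (fun r => (hθd _ _ (hti r)).2.2) ?_ ?_ z w
    (inv_mem (hmem i)) hw (hzfix _ (hfix2 i)) hwfix hwz ?_ hroots 1 (n l i) ?_
  · have h3 := zmod2_of_even hfin
    rw [hsymm l i, hwil] at h3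
    exact absurd h3 (by decide)
  · intro r r' hr
    have h3 : e r - e r' = (θ (t r') - θ (t r)) * ((θ (t r) - θ i)⁻¹ * (θ (t r') - θ i)⁻¹) := by
      simp only [he]
      have h4 := hd0 r
      have h5 := hd0 r'
      field_simp
      ring
    rw [h3]
    exact (hθd _ _ (htt r' r hr.symm)).mul ((hθd _ _ (hti r)).inv.mul (hθd _ _ (hti r')).inv)
  · intro r
    change (D.φ ^ (m * 2)) (e r) = e r
    simp only [he]
    rw [map_inv₀, map_sub, hfix2, hfix2]
  · intro a h
    refine htr (a⁻¹ + θ i) ?_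
    change D.ι a = z at h
    rw [map_add, map_inv₀, h, hz, inv_inv, sub_add_cancel]
  · have h3 := hepar 1
    rw [zero_add] at h3
    exact h3

end abs

end Dat

end Pool.Agent.W623.SecC
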