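import Pool.Agent.W623.SecC.Unr
import Pool.Agent.W623.SecF.TypeB

/-! # The type of a section, with two valuation rings -/

namespace Pool.Agent.W623.SecC

open Pool.Agent.W620.SC Polynomial IntermediateField Pool.Agent.W623.SecD

universe u v w

variable {k : Type u} {F : Type v} {Ω : Type w} [Field k] [Field F] [Field Ω] [Algebra k F]
  [Algebra F Ω] [Algebra k Ω] [IsScalarTower k F Ω]

theorem typ_fix [CharZero k] [IsAlgClosed Ω] [Algebra.IsAlgebraic F Ω]
    (U : Set (ValuationSubring F)) (hU : ∀ O ∈ U, ∀ c : k, algebraMap k F c ∈ O)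
    (G : GSection k F Ω U) (V : ValuationSubring (algebraicClosure k Ω))
    (S : IntermediateField k (algebraicClosure k Ω)) (ϖ : k) (ϖ0 : ϖ ≠ 0)
    (ϖn : algebraMap k (algebraicClosure k Ω) ϖ ∈ V.nonunits)
    (sq : ∀ η ∈ S, IsU V η → ∀ ρ : algebraicClosure k Ω, ρ ^ 2 = η → ρ ∈ S)
    (tame : ∀ c ∈ S, c ≠ 0 → ∃ j : ℤ, IsU V (c / algebraMap k (algebraicClosure k Ω) ϖ ^ j))
    (φ : algebraicClosure k Ω ≃ₐ[k] algebraicClosure k Ω) (φV : ∀ x, φ x ∈ V ↔ x ∈ V)
    (φS : ∀ x, φ x ∈ S ↔ x ∈ S)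
    (τ : algebraicClosure k Ω ≃ₐ[k] algebraicClosure k Ω) (τV : ∀ x, τ x ∈ V ↔ x ∈ V)
    (τS : ∀ x, τ x ∈ S ↔ x ∈ S)
    {X : Type*} [Fintype X] [DecidableEq X]
    (hX4 : 4 ≤ Fintype.card X) (θ : X → algebraicClosure k Ω) (π : Equiv.Perm X)
    (hπ : ∀ i, τ (θ i) = θ (π i)) (x : F) (r : X)
    (h : (mkDat U hU G V S ϖ ϖ0 ϖn sq tame φ φV φS).Typ (algebraMap F (unramified F Ω U) x) θ r) :
    π r = r := by
  have h' : (mkDat U hU G V S ϖ ϖ0 ϖn sq tame τ τV τS).Typ (algebraMap F (unramified F Ω U) x) θ r :=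
    ⟨fun i hi n hn => h.odd i hi n hn, fun i j hi hj n hn => h.even i j hi hj n hn,
      fun i j => h.ex i j⟩
  exact h'.fix hX4 π hπ (fun σ => (G.toHom σ).commutes x)

theorem unr_mainC [CharZero k] [IsAlgClosed Ω] [Algebra.IsAlgebraic F Ω]
    (hA7 : PartA7.{w, w}) (hA8 : PartA8b.{w, w})
    (U : Set (ValuationSubring F)) (hU : ∀ O ∈ U, ∀ c : k, algebraMap k F c ∈ O)
    (G : GSection k F Ω U) (V : ValuationSubring (algebraicClosure k Ω))
    (S : IntermediateField k (algebraicClosure k Ω)) (ϖ : k) (ϖ0 : ϖ ≠ 0)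
    (ϖn : algebraMap k (algebraicClosure k Ω) ϖ ∈ V.nonunits)
    (sq : ∀ η ∈ S, IsU V η → ∀ ρ : algebraicClosure k Ω, ρ ^ 2 = η → ρ ∈ S)
    (tame : ∀ c ∈ S, c ≠ 0 → ∃ j : ℤ, IsU V (c / algebraMap k (algebraicClosure k Ω) ϖ ^ j))
    (φ : algebraicClosure k Ω ≃ₐ[k] algebraicClosure k Ω) (φV : ∀ x, φ x ∈ V ↔ x ∈ V)
    (φS : ∀ x, φ x ∈ S ↔ x ∈ S)
    (V' : ValuationSubring (algebraicClosure k Ω)) (hVV : V' ≤ V) (hφV' : ∀ x, φ x ∈ V' ↔ x ∈ V')
    (h2 : (2 : algebraicClosure k Ω)⁻¹ ∈ V') (q : ℕ) (hq2 : 2 ≤ q)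
    (hq : ∀ x ∈ V', φ x - x ^ q ∈ V'.nonunits)
    {X : Type*} [Fintype X] [DecidableEq X] (hX : Even (Fintype.card X))
    (hX4 : 4 ≤ Fintype.card X) (θ : X → algebraicClosure k Ω) (hθS : ∀ i, θ i ∈ S)
    (hθd : ∀ i j, i ≠ j → IsU V' (θ i - θ j)) (π : Equiv.Perm X)
    (hπ : ∀ i, φ (θ i) = θ (π i)) (x y : F) (hy0 : y ≠ 0) (c : algebraicClosure k Ω) (hcS : c ∈ S)
    (jc : ℤ) (hjc : Odd jc) (hc : IsU V (c / algebraMap k (algebraicClosure k Ω) ϖ ^ jc))
    (hxy : (c : Ω) * algebraMap F Ω y ^ 2 = ∏ i, (algebraMap F Ω x - (θ i : Ω)))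
    (htr : ∀ a : algebraicClosure k Ω, (a : Ω) ≠ algebraMap F Ω x) :
    ∃ r, (mkDat U hU G V S ϖ ϖ0 ϖn sq tame φ φV φS).Typ (algebraMap F (unramified F Ω U) x) θ r := by
  have hac : IsAlgClosure k (algebraicClosure k Ω) := inferInstance
  have hA : IsAlgClosed (algebraicClosure k Ω) := hac.1
  have hWk : ∀ W : ValuationSubring Ω, W.comap (algebraMap F Ω) ∈ U →
      ∀ c : k, algebraMap k Ω c ∈ W := by
    intro W hW c
    rw [IsScalarTower.algebraMap_apply k F Ω]
    exact hU _ hW c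
  have hWA : ∀ W : ValuationSubring Ω, W.comap (algebraMap F Ω) ∈ U →
      ∀ c : algebraicClosure k Ω, algebraMap (algebraicClosure k Ω) Ω c ∈ W := by
    intro W hW c
    exact const_mem (hWk W hW) c.2
  have hc0 : c ≠ 0 := by
    rintro rfl
    rw [zero_div] at hc
    exact hc.1 rfl
  have hθinj : Function.Injective θ := by
    intro i j hij
    by_contra hne
    exact (hθd i j hne).1 (sub_eq_zero.2 hij)
  set D := mkDat U hU G V S ϖ ϖ0 ϖn sq tame φ φV φS with hD
  have hyM0 : algebraMap F (unramified F Ω U) y ≠ 0 := (_root_.map_ne_zero _).2 hy0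
  have hyΩ : algebraMap F Ω y ≠ 0 := (_root_.map_ne_zero _).2 hy0
  refine D.absB2 hA8 V' hVV hφV' h2 q hq2 hq hX hX4 θ hθS hθd π hπ (algebraMap F (unramified F Ω U) x) (algebraMap F (unramified F Ω U) y)
    (fun σ => (G.toHom σ).commutes x) (fun σ => (G.toHom σ).commutes y) hyM0 c hcS jc hjc hc ?_ ?_
    ?_ ?_
  · apply (algebraMap (unramified F Ω U) Ω).injective
    rw [map_mul, map_pow, map_prod]
    exact hxy
  · intro a h
    exact htr a (congrArg (algebraMap (unramified F Ω U) Ω) h)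
  · -- square roots
    intro i i'
    by_cases hii : i = i'
    · subst hii
      refine ⟨1, ?_⟩
      rw [one_pow, div_self]
      intro h
      refine htr (θ i) ?_
      have h1 := congrArg (algebraMap (unramified F Ω U) Ω) (sub_eq_zero.1 h)
      exact h1.symm
    · have hval : (((algebraMap F (unramified F Ω U) x - D.ι (θ i)) / (algebraMap F (unramified F Ω U) x - D.ι (θ i')) : unramified F Ω U) : Ω) =
          (algebraMap F Ω x - algebraMap (algebraicClosure k Ω) Ω (θ i)) /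
            (algebraMap F Ω x - algebraMap (algebraicClosure k Ω) Ω (θ i')) := by
        change algebraMap (unramified F Ω U) Ω ((algebraMap F (unramified F Ω U) x - D.ι (θ i)) /
          (algebraMap F (unramified F Ω U) x - D.ι (θ i'))) = _
        rw [map_div₀, map_sub, map_sub]
        rfl
      refine exists_root_unramified (k := k) U hU (n := 2) (by norm_num) _ ?_
      intro hne W hW
      rw [hval] at hne ⊢
      obtain ⟨t, ht, ht0, h3, h4⟩ := ratio_local (algebraMap (algebraicClosure k Ω) Ω) W (hWA W hW)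
        θ hθinj (algebraMap F Ω x) (algebraMap F Ω y) hyΩ c hc0 hxy i i' hii hne
      refine ⟨t, ?_, ht0, h3, h4⟩
      rcases ht with rfl | rfl | rfl
      · exact one_mem _
      · exact IntermediateField.algebraMap_mem _ y
      · exact inv_mem (IntermediateField.algebraMap_mem _ y)
  · -- the roots of the generators
    intro z w e W hWe hzw htrS n x' y' hxy' f hf
    have hzw'' : W.polynomial.eval₂ (eval₂RingHom ((algebraMap (unramified F Ω U) Ω).comp
        (D.ι.comp (algebraMap D.S (algebraicClosure k Ω)))) (z : Ω)) (w : Ω) = 0 := by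
      have h3 := congrArg (algebraMap (unramified F Ω U) Ω) hzw
      rw [hom_eval₂, map_zero] at h3
      rw [← h3]
      congr 1
      ext a
      · simp
      · simp
    have hev : algebraMap (unramified F Ω U) Ω (ev W (D.ι.comp (algebraMap D.S (algebraicClosure k Ω))) z w hzw f) =
        ev W ((algebraMap (unramified F Ω U) Ω).comp (D.ι.comp (algebraMap D.S (algebraicClosure k Ω)))) (z : Ω)
          (w : Ω) hzw'' f :=
      ev_map W _ _ _ hzw (algebraMap (unramified F Ω U) Ω) _ _ _ hzw'' rfl rfl rfl f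
    refine exists_root_unramified (k := k) U hU (by positivity) _ ?_
    intro hne O hO
    obtain ⟨t, ht, ht0, h3, h4⟩ := hA7 D.S Ω ((algebraMap (unramified F Ω U) Ω).comp
        (D.ι.comp (algebraMap D.S (algebraicClosure k Ω)))) O (fun c => hWA O hO (c : algebraicClosure k Ω))
        e W hWe (z : Ω) (w : Ω) hzw'' (by
          intro P hP h
          apply htrS P hP
          apply (algebraMap (unramified F Ω U) Ω).injective
          rw [hom_eval₂, map_zero]
          exact h) (2 ^ n) x' y' hxy' f hf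
    refine ⟨t, ?_, ht0, ?_, ?_⟩
    · rcases ht with rfl | rfl | rfl
      · exact sub_mem z.2 (D.ι _).2
      · exact sub_mem w.2 (D.ι _).2
      · exact div_mem w.2 z.2
    · change algebraMap (unramified F Ω U) Ω _ / _ ∈ O
      rw [hev]
      exact h3
    · change _ / algebraMap (unramified F Ω U) Ω _ ∈ O
      rw [hev]
      exact h4

end Pool.Agent.W623.SecC
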