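import Pool.Agent.W623.SecC.Main
import Pool.Agent.W623.SecD.Over
import Pool.Agent.W623.SecE.Loc
import Pool.Agent.W623.SecF.UnrC
import Pool.Agent.W623.SecF.Dec

/-! # A section gives a root in the residue field -/

namespace Pool.Agent.W623.SecC

open Pool.Agent.W620.SC Polynomial IntermediateField Pool.Agent.W623.SecD

universe u v w

/-- the closure under square roots of units is stable under the decomposition group -/
theorem exists_S {k : Type u} {kb : Type w} [Field k] [CharZero k] [Field kb] [Algebra k kb]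
    (V : ValuationSubring kb) (h2 : (2 : kb)⁻¹ ∈ V) (ϖ : k) (hϖ : ϖ ≠ 0)
    (L : IntermediateField k kb)
    (hL : ∀ c ∈ L, c ≠ 0 → ∃ j : ℤ, IsU V (c / algebraMap k kb ϖ ^ j)) :
    ∃ S : IntermediateField k kb, L ≤ S ∧
      (∀ τ : kb ≃ₐ[k] kb, (∀ x, τ x ∈ V ↔ x ∈ V) → (∀ x, τ x ∈ L ↔ x ∈ L) →
        ∀ x, τ x ∈ S ↔ x ∈ S) ∧
      (∀ η ∈ S, IsU V η → ∀ ρ : kb, ρ ^ 2 = η → ρ ∈ S) ∧
      (∀ c ∈ S, c ≠ 0 → ∃ j : ℤ, IsU V (c / algebraMap k kb ϖ ^ j)) := by
  have hπ : algebraMap k kb ϖ ≠ 0 := by simpa using hϖ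
  have h2v : V.valuation (2 : kb) = 1 := by
    rw [← W933.SecC.isU_iff]
    refine ⟨?_, ?_, h2⟩
    · have : CharZero kb := charZero_of_injective_algebraMap (algebraMap k kb).injective
      exact two_ne_zero
    · have : (2 : kb) = 1 + 1 := by norm_num
      rw [this]; exact add_mem (one_mem V) (one_mem V)
  have hLt : W933.SecC.Tame V (algebraMap k kb ϖ) L := (W933.SecC.tame_iff V hπ L).2 hL
  obtain ⟨M, hLM, hMt, hMc⟩ := W933.SecC.exists_max V h2v _ L hLt
  refine ⟨W933.SecC.cl V L, ?_, ?_, ?_, ?_⟩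
  · intro x hx
    rw [W933.SecC.mem_cl]
    intro T hT _
    exact hT hx
  · intro φ hφV hφL x
    constructor
    · intro hx
      have h := W933.SecC.cl_map V L φ.symm (fun y => by
        have := hφV (φ.symm y)
        rw [AlgEquiv.apply_symm_apply] at this
        exact this.symm) (fun y => by
        have := hφL (φ.symm y)
        rw [AlgEquiv.apply_symm_apply] at this
        exact this.symm) (φ x) hx
      rwa [AlgEquiv.symm_apply_apply] at h
    · exact W933.SecC.cl_map V L φ hφV hφL x
  · intro η hη hU ρ hρ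
    rw [W933.SecC.mem_cl] at hη ⊢
    intro T hLT hT
    exact hT η (hη T hLT hT) hU ρ hρ
  · have : W933.SecC.cl V L ≤ M := by
      intro x hx
      rw [W933.SecC.mem_cl] at hx
      exact hx M hLM hMc
    have ht : W933.SecC.Tame V (algebraMap k kb ϖ) (W933.SecC.cl V L) :=
      fun c hc hc0 => hMt c (this hc) hc0
    exact (W933.SecC.tame_iff V hπ _).1 ht

theorem local_rootB' {k : Type u} {F : Type v} {Ω : Type w} [Field k] [CharZero k]
    (O A : ValuationSubring k) (hOA : O ≤ A) [IsDiscreteValuationRing A]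
    [Finite (IsLocalRing.ResidueField O)] [Field F] [Field Ω] [Algebra k F] [Algebra F Ω]
    [Algebra k Ω] [IsScalarTower k F Ω] [IsAlgClosed Ω] [Algebra.IsAlgebraic F Ω]
    (hA7 : PartA7.{w, w}) (hA8 : PartA8b.{w, w}) (hB2 : PartB2b.{u, w})
    (h2 : IsUnit (2 : O)) (f : O[X]) (hlc : IsUnit f.leadingCoeff)
    (hs : (f.map (IsLocalRing.residue O)).Separable) (hev : Even f.natDegree)
    (h4 : 4 ≤ f.natDegree)
    (ϖ : A) (hϖ : Irreducible ϖ) (a : k) (t : A) (ht : IsUnit t) (m : ℤ) (hm : Odd m)
    (ha : a = algebraMap A k t * algebraMap A k ϖ ^ m)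
    (U : Set (ValuationSubring F)) (hU : ∀ O ∈ U, ∀ c : k, algebraMap k F c ∈ O)
    (G : GSection k F Ω U)
    (x y : F) (hxy : algebraMap k F a * y ^ 2 = aeval x (f.map (algebraMap O k)))
    (htr : ∀ b : algebraicClosure k Ω, (b : Ω) ≠ algebraMap F Ω x) :
    ∃ b : A, (f.map (ValuationSubring.inclusion O A hOA)).eval b ∈ IsLocalRing.maximalIdeal A := by
  classical
  have hac : IsAlgClosure k (algebraicClosure k Ω) := inferInstance
  have hkb : IsAlgClosed (algebraicClosure k Ω) := hac.1
  let _ : Algebra O (algebraicClosure k Ω) :=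
    ((algebraMap k (algebraicClosure k Ω)).comp (algebraMap O k)).toAlgebra
  have hst : IsScalarTower O k (algebraicClosure k Ω) :=
    IsScalarTower.of_algebraMap_eq (fun _ => rfl)
  let _ : Algebra A (algebraicClosure k Ω) :=
    ((algebraMap k (algebraicClosure k Ω)).comp (algebraMap A k)).toAlgebra
  have hstA : IsScalarTower A k (algebraicClosure k Ω) :=
    IsScalarTower.of_algebraMap_eq (fun _ => rfl)
  obtain ⟨V', φ, hVa', hVm', hφV', hφq⟩ := partB1b O k (algebraicClosure k Ω)
  set q := Nat.card (IsLocalRing.ResidueField O) with hq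
  have hq2 : 2 ≤ q := by
    have := Fintype.ofFinite (IsLocalRing.ResidueField O)
    rw [hq, Nat.card_eq_fintype_card]
    exact Fintype.one_lt_card
  have hV'k : ∀ a ∈ O, algebraMap k (algebraicClosure k Ω) a ∈ V' := fun a ha => hVa' ⟨a, ha⟩
  have hm'k : ∀ a ∈ O.nonunits, algebraMap k (algebraicClosure k Ω) a ∈ V'.nonunits := by
    intro a ha
    rw [ValuationSubring.mem_nonunits_iff_exists_mem_maximalIdeal] at ha
    obtain ⟨h1, h2⟩ := ha
    exact hVm' _ h2
  set V := overV O A V' hV'k with hVdef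
  have hVV : V' ≤ V := le_over O A V' hV'k
  have hφV : ∀ x, φ x ∈ V ↔ x ∈ V := over_stable O A V' hV'k φ hφV'
  have hVA : ∀ a : A, algebraMap A (algebraicClosure k Ω) a ∈ V := fun a =>
    map_mem_over O A V' hV'k a.2
  have hVAm : ∀ a ∈ IsLocalRing.maximalIdeal A, algebraMap A (algebraicClosure k Ω) a ∈ V.nonunits :=
    fun a ha => map_nonunit_over O A hOA V' hV'k hm'k
      ((ValuationSubring.coe_mem_nonunits_iff).2 ha)
  have hVa : ∀ a : O, algebraMap O (algebraicClosure k Ω) a ∈ V := fun a => hVV (hVa' a)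
  have hunitA : ∀ b : A, IsUnit b → IsU V (algebraMap A (algebraicClosure k Ω) b) := by
    rintro b ⟨b, rfl⟩
    refine ⟨(b.isUnit.map (algebraMap A (algebraicClosure k Ω))).ne_zero, hVA _, ?_⟩
    have h1 : (algebraMap A (algebraicClosure k Ω) (b : A))⁻¹ =
        algebraMap A (algebraicClosure k Ω) ((b⁻¹ : Aˣ) : A) := by
      refine inv_eq_of_mul_eq_one_right ?_
      rw [← map_mul, Units.mul_inv, map_one]
    rw [h1]
    exact hVA _
  have hunit' : ∀ b : O, IsUnit b → IsU V' (algebraMap O (algebraicClosure k Ω) b) := by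
    rintro b ⟨b, rfl⟩
    refine ⟨(b.isUnit.map (algebraMap O (algebraicClosure k Ω))).ne_zero, hVa' _, ?_⟩
    have h1 : (algebraMap O (algebraicClosure k Ω) (b : O))⁻¹ =
        algebraMap O (algebraicClosure k Ω) ((b⁻¹ : Oˣ) : O) := by
      refine inv_eq_of_mul_eq_one_right ?_
      rw [← map_mul, Units.mul_inv, map_one]
    rw [h1]
    exact hVa' _
  have hunit : ∀ b : O, IsUnit b → IsU V (algebraMap O (algebraicClosure k Ω) b) := fun b hb =>
    (hunit' b hb).mono hVV
  have hAinj : Function.Injective (algebraMap A (algebraicClosure k Ω)) := by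
    rw [IsScalarTower.algebraMap_eq A k (algebraicClosure k Ω)]
    exact (algebraMap k (algebraicClosure k Ω)).injective.comp (IsFractionRing.injective A k)
  have hϖk0 : algebraMap A k ϖ ≠ 0 := by
    rw [Ne, map_eq_zero_iff _ (IsFractionRing.injective A k)]
    exact hϖ.ne_zero
  set p := algebraMap A (algebraicClosure k Ω) ϖ with hp
  have hp0 : p ≠ 0 := by
    rw [hp, Ne, map_eq_zero_iff _ hAinj]
    exact hϖ.ne_zero
  have hpn : p ∈ V.nonunits := hVAm _ (by
    rw [hϖ.maximalIdeal_eq]
    exact Ideal.mem_span_singleton_self ϖ)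
  have hpk : algebraMap k (algebraicClosure k Ω) (algebraMap A k ϖ) = p := rfl
  have h2V : (2 : algebraicClosure k Ω)⁻¹ ∈ V' := by
    have h1 := (hunit' 2 h2).2.2
    rwa [map_ofNat] at h1
  -- the roots
  obtain ⟨hnd, hdist⟩ := roots_distinct V' hVa' hVm' f hlc hs
  set P := f.map (algebraMap O (algebraicClosure k Ω)) with hP
  have hlc0 : algebraMap O (algebraicClosure k Ω) f.leadingCoeff ≠ 0 := (hunit _ hlc).1
  have hP0 : P ≠ 0 := by
    intro h
    apply hlc0
    rw [← leadingCoeff_map_of_leadingCoeff_ne_zero _ hlc0, ← hP, h, leadingCoeff_zero]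
  have hPdeg : P.natDegree = f.natDegree := natDegree_map_of_leadingCoeff_ne_zero _ hlc0
  have hmemroots : ∀ θ, θ ∈ P.roots.toFinset ↔ aeval θ f = 0 := by
    intro θ
    rw [Multiset.mem_toFinset, mem_roots hP0, IsRoot.def, hP, eval_map]
    rfl
  let X := {θ // θ ∈ P.roots.toFinset}
  have hcardX : Fintype.card X = f.natDegree := by
    rw [Fintype.card_coe, Multiset.toFinset_card_of_nodup hnd, ← hPdeg]
    exact (IsAlgClosed.splits P).natDegree_eq_card_roots.symm
  have hprodX : ∀ {B : Type w} [CommMonoid B] (g : algebraicClosure k Ω → B),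
      ∏ i : X, g i = (P.roots.map g).prod := by
    intro B _ g
    rw [Finset.prod_coe_sort P.roots.toFinset g, Finset.prod, Multiset.toFinset_val,
      Multiset.dedup_eq_self.2 hnd]
  have hφroot : ∀ θ, θ ∈ P.roots.toFinset ↔ φ θ ∈ P.roots.toFinset := by
    intro θ
    rw [hmemroots, hmemroots]
    have h1 : aeval (φ θ) f = φ (aeval θ f) := by
      rw [aeval_def, aeval_def]
      change _ = (φ : algebraicClosure k Ω →+* algebraicClosure k Ω) _
      rw [hom_eval₂]
      congr 1
      ext b
      exact congrArg Subtype.val (φ.commutes (algebraMap O k b)).symm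
    rw [h1, map_eq_zero_iff _ φ.injective]
  let π : Equiv.Perm X := φ.toEquiv.subtypeEquiv hφroot
  have hπ : ∀ i : X, φ (i : algebraicClosure k Ω) = (π i : algebraicClosure k Ω) := fun i => rfl
  have hθV' : ∀ i : X, (i : algebraicClosure k Ω) ∈ V' := fun i =>
    Pool.Agent.W308.SecC.root_mem V' hVa' f hlc _ ((hmemroots _).1 i.2)
  have hθV : ∀ i : X, (i : algebraicClosure k Ω) ∈ V := fun i => hVV (hθV' i)
  have hθd' : ∀ i j : X, i ≠ j → IsU V' ((i : algebraicClosure k Ω) - j) := by
    intro i j hij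
    exact hdist _ (Multiset.mem_toFinset.1 i.2) _ (Multiset.mem_toFinset.1 j.2)
      (fun h => hij (Subtype.ext h))
  have hθd : ∀ i j : X, i ≠ j → IsU V ((i : algebraicClosure k Ω) - j) := fun i j hij =>
    (hθd' i j hij).mono hVV
  -- the splitting field
  set L := IntermediateField.adjoin k {θ : algebraicClosure k Ω | aeval θ f = 0} with hL
  have hLtame : ∀ c ∈ L, c ≠ 0 → ∃ j : ℤ, IsU V (c / p ^ j) := by
    intro c hc hc0
    let i : O →+* A := ValuationSubring.inclusion O A hOA
    have hi : (algebraMap A (algebraicClosure k Ω)).comp i =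
        algebraMap O (algebraicClosure k Ω) := by
      ext b
      rfl
    have hilc : IsUnit (i f.leadingCoeff) := hlc.map i
    have hlcA : (f.map i).leadingCoeff = i f.leadingCoeff :=
      leadingCoeff_map_of_leadingCoeff_ne_zero _ hilc.ne_zero
    have hmapA : (f.map i).map (algebraMap A (algebraicClosure k Ω)) = P := by
      rw [Polynomial.map_map, hi]
    have hsetA : {θ : algebraicClosure k Ω | aeval θ (f.map i) = 0} =
        {θ : algebraicClosure k Ω | aeval θ f = 0} := by
      ext θ
      rw [Set.mem_setOf_eq, Set.mem_setOf_eq, aeval_def, eval₂_map, hi]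
      rfl
    refine hB2 A k (algebraicClosure k Ω) V hVA hVAm ϖ hϖ (f.map i) (by rw [hlcA]; exact hilc)
      (sep_of_dist V hVA hVAm (f.map i) (by rw [hlcA]; exact hilc) (by rw [hmapA]; exact hnd)
        (by
          rw [hmapA]
          intro θ hθ θ' hθ' hne
          exact (hdist θ hθ θ' hθ' hne).mono hVV)) c (by rw [hsetA]; exact hc) hc0
  -- the product formula
  have hPx : ∀ {B : Type w} [Field B] (g : algebraicClosure k Ω →+* B) (z : B),
      P.eval₂ g z = g (algebraMap O (algebraicClosure k Ω) f.leadingCoeff) *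
        ∏ i : X, (z - g i) := by
    intro B _ g z
    have h1 := (IsAlgClosed.splits P).eq_prod_roots
    have h5 : P.leadingCoeff = algebraMap O (algebraicClosure k Ω) f.leadingCoeff :=
      leadingCoeff_map_of_leadingCoeff_ne_zero _ hlc0
    rw [h5] at h1
    rw [hprodX (fun θ => z - g θ)]
    conv_lhs => rw [h1]
    rw [eval₂_mul, eval₂_C, ← coe_eval₂RingHom, map_multiset_prod, Multiset.map_map]
    congr 2
    refine Multiset.map_congr rfl fun a _ => ?_
    simp
  set c : algebraicClosure k Ω := algebraMap k (algebraicClosure k Ω)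
    (a / algebraMap O k f.leadingCoeff) with hc
  have hcu : IsU V (c / p ^ m) := by
    have h1 : c / p ^ m = algebraMap A (algebraicClosure k Ω) t /
        algebraMap O (algebraicClosure k Ω) f.leadingCoeff := by
      rw [hc, ha, map_div₀, map_mul, map_zpow₀, hpk, ← IsScalarTower.algebraMap_apply,
        ← IsScalarTower.algebraMap_apply]
      have h3 : p ^ m ≠ 0 := zpow_ne_zero _ hp0
      field_simp
    rw [h1]
    exact (hunitA t ht).div (hunit _ hlc)
  have hxyΩ : (c : Ω) * algebraMap F Ω y ^ 2 =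
      ∏ i : X, (algebraMap F Ω x - ((i : algebraicClosure k Ω) : Ω)) := by
    have h1 := congrArg (algebraMap F Ω) hxy
    rw [map_mul, map_pow, ← IsScalarTower.algebraMap_apply] at h1
    have h3 : algebraMap F Ω (aeval x (f.map (algebraMap O k))) =
        P.eval₂ (algebraMap (algebraicClosure k Ω) Ω) (algebraMap F Ω x) := by
      rw [aeval_def, hom_eval₂, hP, eval₂_map, eval₂_map, ← IsScalarTower.algebraMap_eq k F Ω,
        IsScalarTower.algebraMap_eq O k (algebraicClosure k Ω), ← RingHom.comp_assoc,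
        ← IsScalarTower.algebraMap_eq k (algebraicClosure k Ω) Ω]
    rw [h3, hPx] at h1
    have h5 : algebraMap (algebraicClosure k Ω) Ω
        (algebraMap O (algebraicClosure k Ω) f.leadingCoeff) ≠ 0 :=
      (_root_.map_ne_zero _).2 hlc0
    have h6 : (c : Ω) = algebraMap k Ω a / algebraMap (algebraicClosure k Ω) Ω
        (algebraMap O (algebraicClosure k Ω) f.leadingCoeff) := by
      change algebraMap (algebraicClosure k Ω) Ω c = _
      rw [hc, map_div₀, map_div₀, ← IsScalarTower.algebraMap_apply]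
      rfl
    rw [h6, div_mul_eq_mul_div, h1, mul_div_cancel_left₀ _ h5]
    rfl
  have hGal : IsGalois k (algebraicClosure k Ω) := by
    have : Normal k (algebraicClosure k Ω) := IsAlgClosure.normal k _
    exact ⟨⟩
  have hrootτ : ∀ τ : algebraicClosure k Ω ≃ₐ[k] algebraicClosure k Ω, ∀ θ,
      θ ∈ P.roots.toFinset ↔ τ θ ∈ P.roots.toFinset := by
    intro τ θ
    rw [hmemroots, hmemroots]
    have h1 : aeval (τ θ) f = τ (aeval θ f) := by
      rw [aeval_def, aeval_def]
      change _ = (τ : algebraicClosure k Ω →+* algebraicClosure k Ω) _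
      rw [hom_eval₂]
      congr 1
      ext b
      exact congrArg Subtype.val (τ.commutes (algebraMap O k b)).symm
    rw [h1, map_eq_zero_iff _ τ.injective]
  have hτL : ∀ τ : algebraicClosure k Ω ≃ₐ[k] algebraicClosure k Ω, ∀ z, τ z ∈ L ↔ z ∈ L := by
    intro τ
    have h1 : L.map (τ : algebraicClosure k Ω →ₐ[k] algebraicClosure k Ω) = L := by
      rw [hL, IntermediateField.adjoin_map]
      congr 1
      ext θ
      constructor
      · rintro ⟨θ', h1, rfl⟩
        exact (hmemroots _).1 ((hrootτ τ θ').1 ((hmemroots _).2 h1))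
      · intro h1
        refine ⟨τ.symm θ, ?_, τ.apply_symm_apply θ⟩
        refine (hmemroots _).1 ((hrootτ τ _).2 ?_)
        rw [τ.apply_symm_apply]
        exact (hmemroots _).2 h1
    intro z
    constructor
    · intro h3
      rw [← h1] at h3
      obtain ⟨z', h5, h6⟩ := h3
      have h7 : z' = z := τ.injective h6
      rw [← h7]
      exact h5
    · intro h3
      rw [← h1]
      exact ⟨z, h3, rfl⟩
  obtain ⟨S, hLS, hτS, hSsq, hStame⟩ := exists_S V (hVV h2V) (algebraMap A k ϖ) hϖk0 L hLtame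
  have hy0 : y ≠ 0 := by
    rintro rfl
    rw [map_zero, zero_pow (by norm_num), mul_zero] at hxyΩ
    obtain ⟨i, -, hi⟩ := Finset.prod_eq_zero_iff.1 hxyΩ.symm
    exact htr i (sub_eq_zero.1 hi).symm
  obtain ⟨r, hr⟩ := unr_mainC hA7 hA8 U hU G V S (algebraMap A k ϖ) hϖk0 hpn hSsq hStame φ hφV
    (hτS φ hφV (hτL φ))
    V' hVV hφV' h2V q hq2 hφq (X := X) (by rw [hcardX]; exact hev) (by rw [hcardX]; exact h4)
    (fun i => i)
    (fun i => hLS (IntermediateField.subset_adjoin k _ ((hmemroots _).1 i.2))) hθd' π hπ x y hy0 c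
    (S.algebraMap_mem _) m hm hcu hxyΩ htr
  have hfix : ∀ τ : algebraicClosure k Ω ≃ₐ[k] algebraicClosure k Ω, (∀ z, τ z ∈ V ↔ z ∈ V) →
      τ (r : algebraicClosure k Ω) = r := by
    intro τ hτV
    let π' : Equiv.Perm X := τ.toEquiv.subtypeEquiv (hrootτ τ)
    have h1 := typ_fix U hU G V S (algebraMap A k ϖ) hϖk0 hpn hSsq hStame φ hφV
      (hτS φ hφV (hτL φ)) τ hτV (hτS τ hτV (hτL τ)) (X := X) (by rw [hcardX]; exact h4)
      (fun i => i) π' (fun i => rfl) x r hr
    exact congrArg Subtype.val h1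
  -- the polynomial over `A`
  have hi : (algebraMap A (algebraicClosure k Ω)).comp (ValuationSubring.inclusion O A hOA) =
      algebraMap O (algebraicClosure k Ω) := by
    ext b
    rfl
  have hilc : IsUnit ((ValuationSubring.inclusion O A hOA) f.leadingCoeff) := hlc.map _
  have hlcA : (f.map (ValuationSubring.inclusion O A hOA)).leadingCoeff =
      (ValuationSubring.inclusion O A hOA) f.leadingCoeff :=
    leadingCoeff_map_of_leadingCoeff_ne_zero _ hilc.ne_zero
  have hmapA : (f.map (ValuationSubring.inclusion O A hOA)).map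
      (algebraMap A (algebraicClosure k Ω)) = P := by
    rw [Polynomial.map_map, hi]
  have hrP : P.eval (r : algebraicClosure k Ω) = 0 := by
    have h := r.2
    rw [Multiset.mem_toFinset, mem_roots hP0] at h
    exact h
  obtain ⟨b, hb⟩ := Pool.Agent.W623.SecF.exists_near (k := k) V hVA hVAm
    (f.map (ValuationSubring.inclusion O A hOA)) (by rw [hlcA]; exact hilc)
    (sep_of_dist V hVA hVAm (f.map (ValuationSubring.inclusion O A hOA))
      (by rw [hlcA]; exact hilc) (by rw [hmapA]; exact hnd)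
        (by
          rw [hmapA]
          intro θ hθ θ' hθ' hne
          exact (hdist θ hθ θ' hθ' hne).mono hVV)) (r : algebraicClosure k Ω) (by
      rw [aeval_def, ← eval_map, hmapA, hrP]) hfix
  refine ⟨b, ?_⟩
  have h1 := Pool.Agent.W623.SecE.eval_congr V hVA (f.map (ValuationSubring.inclusion O A hOA)) b r
    (hθV r) hb
  rw [hmapA, hrP, sub_zero] at h1
  exact (Pool.Agent.W623.SecF.nonunit_iff V hVA hVAm _).1 h1

end Pool.Agent.W623.SecC
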