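import Pool.Agent.W623.SecD.Comp
import Pool.Agent.W623.SecF.MainC

/-! # Finitely generated residue fields -/

namespace Pool.Agent.W623.SecC

open Pool.Agent.W620.SC Polynomial Pool.Agent.W623.SecD

universe u u' v w

section comp

variable {k : Type u} [Field k] (A : ValuationSubring k)
  {K : Type u'} [Field K] (ρ : A →+* K) (hρ : Function.Surjective ρ)
  (f : A[X]) (hlc : IsUnit f.leadingCoeff) (hs : (f.map ρ).Separable)

include hρ hlc hs in
/-- a valuation ring with finite residue field inside `A` -/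
theorem exists_O' (h2K : (2 : K) ≠ 0) (hval : ∀ S : Finset K, ∃ O : ValuationSubring K,
      Finite (IsLocalRing.ResidueField O) ∧ (2 : K)⁻¹ ∈ O ∧ ∀ s ∈ S, s ∈ O) :
    ∃ (O : ValuationSubring k) (hOA : O ≤ A) (g : O[X]),
    g.map (ValuationSubring.inclusion O A hOA) = f ∧ Finite (IsLocalRing.ResidueField O) ∧
      IsUnit (2 : O) ∧ IsUnit g.leadingCoeff ∧ g.natDegree = f.natDegree ∧
      (g.map (IsLocalRing.residue O)).Separable := by
  classical
  obtain ⟨u, v, huv⟩ := id hs
  obtain ⟨B, hfin, h2, hS⟩ := hval ((f.map ρ).coeffs ∪ (u.coeffs ∪ v.coeffs) ∪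
    {(ρ f.leadingCoeff)⁻¹, 2⁻¹})
  have hinjB : Function.Injective (algebraMap B K) := Subtype.val_injective
  have hmem : ∀ p : K[X], p.coeffs ⊆ (f.map ρ).coeffs ∪ (u.coeffs ∪ v.coeffs) →
      ∃ q : B[X], q.map (algebraMap B K) = p := by
    intro p hp
    rw [← mem_lifts, lifts_iff_coeff_lifts]
    intro j
    by_cases hj : p.coeff j = 0
    · exact ⟨0, by rw [hj]; rfl⟩
    · exact ⟨⟨p.coeff j, hS _ (Finset.mem_union_left _ (hp (coeff_mem_coeffs hj)))⟩, rfl⟩
  obtain ⟨fB, hfB⟩ := hmem (f.map ρ) Finset.subset_union_left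
  obtain ⟨uB, huB⟩ := hmem u (Finset.subset_union_left.trans Finset.subset_union_right)
  obtain ⟨vB, hvB⟩ := hmem v (Finset.subset_union_right.trans Finset.subset_union_right)
  have hsepB : fB.Separable := by
    refine ⟨uB, vB, ?_⟩
    apply Polynomial.map_injective _ hinjB
    rw [Polynomial.map_add, Polynomial.map_mul, Polynomial.map_mul, ← derivative_map, hfB, huB, hvB,
      Polynomial.map_one]
    exact huv
  set O := compV A ρ hρ B with hO
  have hOA : O ≤ A := compV_le A ρ hρ
  set i := ValuationSubring.inclusion O A hOA with hi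
  set τ := compTo A ρ hρ B with hτ
  have hτloc : IsLocalHom τ := compTo_local A ρ hρ B
  have hlift : f ∈ lifts i := by
    rw [lifts_iff_coeff_lifts]
    intro j
    refine ⟨⟨(f.coeff j : A), (mem_compV A ρ hρ).2 ⟨Subtype.mem _, fB.coeff j, ?_⟩⟩, ?_⟩
    · have h1 := congrArg (fun P => P.coeff j) hfB
      simp only [coeff_map] at h1
      exact h1
    · rfl
  obtain ⟨g, hg⟩ := (mem_lifts _).1 hlift
  have hgτ : g.map τ = fB := by
    apply Polynomial.map_injective _ hinjB
    rw [hfB, ← hg]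
    ext j
    rw [coeff_map, coeff_map, coeff_map, coeff_map]
    exact compTo_spec A ρ hρ B (g.coeff j)
  have hiinj : Function.Injective i := by
    intro x y h
    exact Subtype.ext (congrArg (fun z : A => (z : k)) h)
  have hdegg : g.natDegree = f.natDegree := by
    rw [← natDegree_map_eq_of_injective hiinj g, hg]
  have hBunit : ∀ b : B, (b : K) ≠ 0 → (b : K)⁻¹ ∈ B → IsUnit b := by
    intro b hb hb'
    exact IsUnit.of_mul_eq_one ⟨(b : K)⁻¹, hb'⟩ (Subtype.ext (mul_inv_cancel₀ hb))
  have hρlc : ρ f.leadingCoeff ≠ 0 := (hlc.map ρ).ne_zero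
  have hlcg : IsUnit g.leadingCoeff := by
    apply hτloc.map_nonunit
    have h1 : ((τ g.leadingCoeff : B) : K) = ρ f.leadingCoeff := by
      have h2 : f.leadingCoeff = i g.leadingCoeff := by
        rw [← hg, leadingCoeff_map_of_injective hiinj]
      rw [h2]
      exact compTo_spec A ρ hρ B g.leadingCoeff
    refine hBunit _ (by rw [h1]; exact hρlc) ?_
    rw [h1]
    exact hS _ (Finset.mem_union_right _ (Finset.mem_insert_self _ _))
  refine ⟨O, hOA, g, hg, ?_, ?_, hlcg, hdegg, ?_⟩
  · exact Finite.of_injective _ (IsLocalRing.ResidueField.map τ).injective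
  · apply hτloc.map_nonunit
    rw [map_ofNat]
    exact hBunit _ h2K h2
  · rw [← separable_map (IsLocalRing.ResidueField.map τ), Polynomial.map_map]
    have h1 : (IsLocalRing.ResidueField.map τ).comp (IsLocalRing.residue O) =
        (IsLocalRing.residue B).comp τ := by
      ext x
      rfl
    rw [h1, ← Polynomial.map_map, hgτ]
    exact hsepB.map

variable [CharZero k] [IsDiscreteValuationRing A] (ϖ : A) (hϖ : Irreducible ϖ) (a : k) (t : A)
    (ht : IsUnit t) (m : ℤ) (hm : Odd m)
    (ha : a = algebraMap A k t * algebraMap A k ϖ ^ m) (hev : Even f.natDegree)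

include hρ hlc hs hϖ ht hm ha hev in
/-- **Theorem F**: a section gives a root in the residue field -/
theorem fg_root (h2K : (2 : K) ≠ 0) (hval : ∀ S : Finset K, ∃ O : ValuationSubring K,
      Finite (IsLocalRing.ResidueField O) ∧ (2 : K)⁻¹ ∈ O ∧ ∀ s ∈ S, s ∈ O)
    {F : Type v} {Ω : Type w}
    [Field F] [Field Ω] [Algebra k F] [Algebra F Ω]
    [Algebra k Ω] [IsScalarTower k F Ω] [IsAlgClosed Ω] [Algebra.IsAlgebraic F Ω]
    (h4 : 4 ≤ f.natDegree)
    (U : Set (ValuationSubring F)) (hU : ∀ O ∈ U, ∀ c : k, algebraMap k F c ∈ O)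
    (G : GSection k F Ω U)
    (x y : F) (hxy : algebraMap k F a * y ^ 2 = aeval x (f.map (algebraMap A k))) :
    ∃ b : A, f.eval b ∈ IsLocalRing.maximalIdeal A := by
  by_cases hx : Transcendental k x
  · obtain ⟨O, hOA, g, hg, hfin, h2, hlcg, hdeg, hsg⟩ := exists_O' A ρ hρ f hlc hs h2K hval
    have hgk : g.map (algebraMap O k) = f.map (algebraMap A k) := by
      have h1 : (algebraMap A k).comp (ValuationSubring.inclusion O A hOA) = algebraMap O k := by
        ext b
        rfl
      rw [← h1, ← Polynomial.map_map, hg]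
    obtain ⟨b, hb⟩ := local_rootB' O A hOA allA7 allA8b partB2b h2 g hlcg hsg (by rwa [hdeg])
      (by rwa [hdeg]) ϖ hϖ a t ht m hm ha U hU G x y (by rw [hgk, hxy])
      (Pool.Agent.W623.SecE.tr_const (k := k) (Ω := Ω) hx)
    rw [hg] at hb
    exact ⟨b, hb⟩
  · have ha0 : a ≠ 0 := by
      rw [ha]
      refine mul_ne_zero ?_ (zpow_ne_zero _ ?_)
      · exact (ht.map (algebraMap A k)).ne_zero
      · rw [Ne, map_eq_zero_iff _ (IsFractionRing.injective A k)]
        exact hϖ.ne_zero
    obtain ⟨x', y', -, -, h1⟩ := Pool.Agent.W623.SecE.secpt k F Ω (f.map (algebraMap A k)) a ha0 U hU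
      G x y hxy hx
    by_contra hcon
    push Not at hcon
    exact no_affine_point ϖ hϖ f hlc hev hcon a t ht m hm ha x' y' h1

end comp

end Pool.Agent.W623.SecC
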